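import Pool.Agent.H56R3.Rep

set_option autoImplicit false

open Matrix

namespace Pool.Agent.H56R3

variable {R : Type*} [CommRing R]

/-- elementary matrices as units -/
def E (i j : Fin 3) (h : i ≠ j) (x : R) : (Matrix (Fin 3) (Fin 3) R)ˣ where
  val := transvection i j x
  inv := transvection i j (-x)
  val_inv := by rw [transvection_mul_transvection_same i j h, add_neg_cancel, transvection_zero]
  inv_val := by rw [transvection_mul_transvection_same i j h, neg_add_cancel, transvection_zero]

theorem E_add (i j : Fin 3) (h : i ≠ j) (x y : R) : E i j h (x + y) = E i j h x * E i j h y := by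
  apply Units.ext
  exact (transvection_mul_transvection_same i j h x y).symm

theorem E_zero (i j : Fin 3) (h : i ≠ j) : E i j h (0 : R) = 1 := by
  apply Units.ext
  exact transvection_zero i j

theorem E_comm (i j k : Fin 3) (hij : i ≠ j) (hjk : j ≠ k) (hik : i ≠ k) (x y : R) :
    E i j hij x * E j k hjk y = E i k hik (x * y) * (E j k hjk y * E i j hij x) := by
  apply Units.ext
  change transvection i j x * transvection j k y
    = transvection i k (x * y) * (transvection j k y * transvection i j x)
  unfold transvection
  simp only [mul_add, add_mul, one_mul, mul_one, Matrix.single_mul_single_same,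
    Matrix.single_mul_single_of_ne _ _ _ _ hik.symm, Matrix.single_mul_single_of_ne _ _ _ _ hjk.symm,
    mul_zero, add_zero]
  abel

theorem E_comm1 (i j k : Fin 3) (hij : i ≠ j) (hik : i ≠ k) (x z : R) :
    E i k hik z * E i j hij x = E i j hij x * E i k hik z := by
  apply Units.ext
  change transvection i k z * transvection i j x = transvection i j x * transvection i k z
  unfold transvection
  simp only [mul_add, add_mul, one_mul, mul_one,
    Matrix.single_mul_single_of_ne _ _ _ _ hik.symm, Matrix.single_mul_single_of_ne _ _ _ _ hij.symm,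
    add_zero]
  abel

theorem E_comm2 (i j k : Fin 3) (hjk : j ≠ k) (hik : i ≠ k) (y z : R) :
    E i k hik z * E j k hjk y = E j k hjk y * E i k hik z := by
  apply Units.ext
  change transvection i k z * transvection j k y = transvection j k y * transvection i k z
  unfold transvection
  simp only [mul_add, add_mul, one_mul, mul_one,
    Matrix.single_mul_single_of_ne _ _ _ _ hik.symm, Matrix.single_mul_single_of_ne _ _ _ _ hjk.symm,
    add_zero]
  abel

theorem E_entry (i j : Fin 3) (h : i ≠ j) (x : R) : (E i j h x).val i j = x := by
  change transvection i j x i j = x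
  unfold transvection
  simp [Matrix.add_apply, Matrix.one_apply_ne h]

theorem E_entry_ne (i j k l : Fin 3) (h : i ≠ j) (hkl : k ≠ l) (hne : ¬ (i = k ∧ j = l)) (x : R) :
    (E i j h x).val k l = 0 := by
  change transvection i j x k l = 0
  unfold transvection
  rw [Matrix.add_apply, Matrix.one_apply_ne hkl, Matrix.single_apply_of_ne _ _ _ _ _ hne, add_zero]

theorem E_inj (i j : Fin 3) (h : i ≠ j) {x y : R} (hxy : E i j h x = E i j h y) : x = y := by
  have := congrArg (fun M : (Matrix (Fin 3) (Fin 3) R)ˣ => M.val i j) hxy
  simpa [E_entry] using this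

theorem E_ne (i j k l : Fin 3) (h : i ≠ j) (hkl : k ≠ l) (hne : ¬ (k = i ∧ l = j)) {x y : R}
    (hxy : E i j h x = E k l hkl y) : E i j h x = 1 := by
  have := congrArg (fun M : (Matrix (Fin 3) (Fin 3) R)ˣ => M.val i j) hxy
  simp only [E_entry, E_entry_ne k l i j hkl h hne] at this
  rw [this, E_zero]

/-- the Heisenberg relations for `E i j (x)` and `E j k (t x)` over an algebra over `ZMod p` -/
theorem heisG_E {p : ℕ} [Algebra (ZMod p) R] (i j k : Fin 3) (hij : i ≠ j) (hjk : j ≠ k)
    (hik : i ≠ k) (s t : R) :
    HeisG (fun x : ZMod p => E i j hij (s * algebraMap (ZMod p) R x))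
      (fun x => E j k hjk (t * algebraMap (ZMod p) R x))
      (fun x => E i k hik (s * t * algebraMap (ZMod p) R x)) where
  a_add x y := by simp only [map_add, mul_add, E_add]
  b_add x y := by simp only [map_add, mul_add, E_add]
  z_add x y := by simp only [map_add, mul_add, E_add]
  za x y := E_comm1 i j k hij hik _ _
  zb x y := E_comm2 i j k hjk hik _ _
  comm x y := by
    rw [E_comm i j k hij hjk hik]
    congr 2
    rw [map_mul]; ring

theorem HeisG.map {p : ℕ} {Γ Γ' : Type*} [Group Γ] [Group Γ'] {a b z : ZMod p → Γ}
    (h : HeisG a b z) (φ : Γ →* Γ') :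
    HeisG (fun x => φ (a x)) (fun x => φ (b x)) (fun x => φ (z x)) where
  a_add x y := by rw [h.a_add, map_mul]
  b_add x y := by rw [h.b_add, map_mul]
  z_add x y := by rw [h.z_add, map_mul]
  za x y := by rw [← map_mul, h.za, map_mul]
  zb x y := by rw [← map_mul, h.zb, map_mul]
  comm x y := by rw [← map_mul, h.comm, map_mul, map_mul]

theorem HeisG.pi {p : ℕ} {I : Type*} {Γ : I → Type*} [∀ k, Group (Γ k)]
    {a b z : ∀ k, ZMod p → Γ k} (h : ∀ k, HeisG (a k) (b k) (z k)) :
    HeisG (fun x => fun k => a k x) (fun x => fun k => b k x) (fun x => fun k => z k x) where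
  a_add x y := by funext k; exact (h k).a_add x y
  b_add x y := by funext k; exact (h k).b_add x y
  z_add x y := by funext k; exact (h k).z_add x y
  za x y := by funext k; exact (h k).za x y
  zb x y := by funext k; exact (h k).zb x y
  comm x y := by funext k; exact (h k).comm x y

end Pool.Agent.H56R3
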