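import Pool.Agent.H56R3.Main
import Pool.Agent.H56R3.Elem

set_option autoImplicit false

open Matrix

namespace Pool.Agent.H56R3

/-- the fields -/
abbrev KK (k : ℕ) := GaloisField 5 (k + 1)

/-- finite groups -/
abbrev GG (k : ℕ) := (Matrix (Fin 3) (Fin 3) (KK k))ˣ

theorem exists_t (k : ℕ) : ∃ t : (KK k)ˣ, k ≤ orderOf t := by
  obtain ⟨t, ht⟩ := IsCyclic.exists_generator (α := (KK k)ˣ)
  refine ⟨t, ?_⟩
  have h1 := orderOf_eq_card_of_forall_mem_zpowers ht
  have h2 : Nat.card (KK k) = 5 ^ (k + 1) := GaloisField.card 5 (k + 1) (by omega)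
  have h3 : Nat.card (KK k)ˣ = Nat.card (KK k) - 1 := Nat.card_units (KK k)
  rw [h1, h3, h2]
  have : k < 5 ^ k := Nat.lt_pow_self (by norm_num)
  have h4 : 5 ^ (k + 1) = 5 * 5 ^ k := by ring
  omega

noncomputable def tt (k : ℕ) : (KK k)ˣ := Classical.choose (exists_t k)

theorem tt_spec (k : ℕ) : k ≤ orderOf (tt k) := Classical.choose_spec (exists_t k)

theorem tt_pow_inj (k : ℕ) {i j : ℕ} (hi : i < k) (hj : j < k)
    (h : ((tt k : KK k)) ^ i = ((tt k : KK k)) ^ j) : i = j := by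
  have h1 : (tt k) ^ i = (tt k) ^ j := by
    apply Units.ext; push_cast; exact h
  exact pow_injOn_Iio_orderOf (lt_of_lt_of_le hi (tt_spec k)) (lt_of_lt_of_le hj (tt_spec k)) h1

abbrev h01 : (0 : Fin 3) ≠ 1 := by decide
abbrev h12 : (1 : Fin 3) ≠ 2 := by decide
abbrev h02 : (0 : Fin 3) ≠ 2 := by decide
abbrev h20 : (2 : Fin 3) ≠ 0 := by decide
abbrev h10 : (1 : Fin 3) ≠ 0 := by decide
abbrev h21 : (2 : Fin 3) ≠ 1 := by decide

/-- the big group -/
abbrev PG := ∀ k : ℕ, GG k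

noncomputable def ga (x : ZMod 5) : PG := fun k => E 0 1 h01 (1 * algebraMap (ZMod 5) (KK k) x)
noncomputable def gb (x : ZMod 5) : PG := fun k => E 1 2 h12 (1 * algebraMap (ZMod 5) (KK k) x)
noncomputable def gc (x : ZMod 5) : PG :=
  fun k => E 2 0 h20 ((tt k : KK k) * algebraMap (ZMod 5) (KK k) x)
noncomputable def gab (x : ZMod 5) : PG :=
  fun k => E 0 2 h02 (1 * 1 * algebraMap (ZMod 5) (KK k) x)
noncomputable def gbc (x : ZMod 5) : PG :=
  fun k => E 1 0 h10 (1 * (tt k : KK k) * algebraMap (ZMod 5) (KK k) x)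
noncomputable def gca (x : ZMod 5) : PG :=
  fun k => E 2 1 h21 ((tt k : KK k) * 1 * algebraMap (ZMod 5) (KK k) x)

theorem hGab : HeisG ga gb gab := HeisG.pi (fun k => heisG_E (p := 5) (R := KK k) 0 1 2 h01 h12 h02 1 1)
theorem hGbc : HeisG gb gc gbc :=
  HeisG.pi (fun k => heisG_E (p := 5) (R := KK k) 1 2 0 h12 h20 h10 1 (tt k : KK k))
theorem hGca : HeisG gc ga gca :=
  HeisG.pi (fun k => heisG_E (p := 5) (R := KK k) 2 0 1 h20 h01 h21 (tt k : KK k) 1)

/-- the group generated by the three subgroups -/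
noncomputable def Γ0 : Subgroup PG := Subgroup.closure (Set.range ga ∪ Set.range gb ∪ Set.range gc)

theorem ga_mem (x) : ga x ∈ Γ0 := Subgroup.subset_closure (Or.inl (Or.inl ⟨x, rfl⟩))
theorem gb_mem (x) : gb x ∈ Γ0 := Subgroup.subset_closure (Or.inl (Or.inr ⟨x, rfl⟩))
theorem gc_mem (x) : gc x ∈ Γ0 := Subgroup.subset_closure (Or.inr ⟨x, rfl⟩)

theorem mem_of_comm {Γ : Type*} [Group Γ] (S : Subgroup Γ) {a b z : Γ} (ha : a ∈ S) (hb : b ∈ S)
    (h : a * b = z * (b * a)) : z ∈ S := by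
  have : z = a * b * (b * a)⁻¹ := by rw [h]; group
  rw [this]
  exact S.mul_mem (S.mul_mem ha hb) (S.inv_mem (S.mul_mem hb ha))

noncomputable def hh (i : ℕ) : PG := fun k => E 0 1 h01 ((tt k : KK k) ^ i)

theorem hh_mem (i : ℕ) : hh i ∈ Γ0 := by
  induction i with
  | zero =>
    have : hh 0 = ga 1 := by
      funext k
      simp [hh, ga]
    rw [this]; exact ga_mem 1
  | succ i ih =>
    have e1 : (fun k => E 0 2 h02 ((tt k : KK k) ^ i) : PG) ∈ Γ0 := by
      apply mem_of_comm Γ0 ih (gb_mem 1)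
      funext k
      have := E_comm 0 1 2 h01 h12 h02 ((tt k : KK k) ^ i) 1
      simp only [hh, gb, Pi.mul_apply, map_one, mul_one] at this ⊢
      exact this
    have e2 : (fun k => E 2 1 h21 (tt k : KK k) : PG) ∈ Γ0 := by
      apply mem_of_comm Γ0 (gc_mem 1) (ga_mem 1)
      funext k
      have := E_comm 2 0 1 h20 h01 h21 (tt k : KK k) 1
      simp only [gc, ga, Pi.mul_apply, map_one, mul_one] at this ⊢
      exact this
    apply mem_of_comm Γ0 e1 e2
    funext k
    have := E_comm 0 2 1 h02 h21 h01 ((tt k : KK k) ^ i) (tt k : KK k)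
    simp only [hh, Pi.mul_apply, pow_succ] at this ⊢
    exact this

/-- the underlying set -/
abbrev Y := Σ k : ℕ, Bool × GG k

instance (k : ℕ) : Finite (GG k) := inferInstance

instance : Countable Y := inferInstance

instance : Infinite Y := by
  apply Infinite.of_injective (fun k : ℕ => (⟨k, true, 1⟩ : Y))
  intro a b h
  exact congrArg Sigma.fst h

/-- left multiplication -/
noncomputable def psi : PG →* Equiv.Perm Y where
  toFun g :=
    { toFun := fun y => ⟨y.1, y.2.1, g y.1 * y.2.2⟩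
      invFun := fun y => ⟨y.1, y.2.1, (g y.1)⁻¹ * y.2.2⟩
      left_inv := fun y => by simp
      right_inv := fun y => by simp }
  map_one' := by ext1 y; simp
  map_mul' g h := by ext1 y; simp [mul_assoc]

theorem psi_apply (g : PG) (k : ℕ) (b : Bool) (x : GG k) :
    psi g ⟨k, b, x⟩ = ⟨k, b, g k * x⟩ := rfl

open Classical in
/-- the bridging map -/
noncomputable def tauF (y : Y) : Y := if y.2.2 = 1 then ⟨y.1, !y.2.1, 1⟩ else y

theorem tauF_one (k : ℕ) (b : Bool) : tauF ⟨k, b, 1⟩ = ⟨k, !b, 1⟩ := by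
  unfold tauF
  exact if_pos rfl

theorem tauF_ne (k : ℕ) (b : Bool) (x : GG k) (hx : x ≠ 1) : tauF ⟨k, b, x⟩ = ⟨k, b, x⟩ := by
  unfold tauF
  exact if_neg hx

theorem tauF_invol : Function.Involutive tauF := by
  rintro ⟨k, b, x⟩
  by_cases h : x = 1
  · subst h; rw [tauF_one, tauF_one, Bool.not_not]
  · rw [tauF_ne k b x h, tauF_ne k b x h]

/-- the bridging involution -/
noncomputable def tauY : Equiv.Perm Y := tauF_invol.toPerm

theorem tauY_one (k : ℕ) (b : Bool) : tauY ⟨k, b, 1⟩ = ⟨k, !b, 1⟩ := tauF_one k b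

theorem tauY_ne (k : ℕ) (b : Bool) (x : GG k) (hx : x ≠ 1) : tauY ⟨k, b, x⟩ = ⟨k, b, x⟩ :=
  tauF_ne k b x hx

theorem tauY_fst (y : Y) : (tauY y).1 = y.1 := by
  obtain ⟨k, b, x⟩ := y
  by_cases h : x = 1
  · subst h; rw [tauY_one]
  · rw [tauY_ne k b x h]

noncomputable def eY : Y ≃ ℕ := (Classical.choice (nonempty_denumerable Y)).eqv

/-- transport to `ℕ` -/
noncomputable def phi : PG →* Equiv.Perm ℕ :=
  (Equiv.permCongrHom eY).toMonoidHom.comp psi

theorem phi_apply (g : PG) (y : Y) : phi g (eY y) = eY (psi g y) := by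
  simp [phi, Equiv.permCongrHom, Equiv.permCongr_apply]

noncomputable def tauN : Equiv.Perm ℕ := eY.permCongr tauY

theorem tauN_apply (y : Y) : tauN (eY y) = eY (tauY y) := by
  simp [tauN, Equiv.permCongr_apply]

theorem tauN_sq : tauN * tauN = 1 := by
  ext1 n
  obtain ⟨⟨k, b, x⟩, rfl⟩ := eY.surjective n
  rw [Equiv.Perm.mul_apply, tauN_apply, tauN_apply]
  by_cases h : x = 1
  · subst h
    rw [tauY_one, tauY_one, Bool.not_not]; rfl
  · rw [tauY_ne k b x h, tauY_ne k b x h]; rfl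

theorem ne_one_tau {y : Y} (h : tauN (eY y) ≠ eY y) : y.2.2 = 1 := by
  by_contra hne
  apply h
  obtain ⟨k, b, x⟩ := y
  rw [tauN_apply, tauY_ne k b x hne]

/-- the generators -/
noncomputable def gen : ZMod 5 ⊕ ZMod 5 ⊕ ZMod 5 → PG := Sum.elim ga (Sum.elim gb gc)

theorem gen_inj (k : ℕ) (i j : ZMod 5 ⊕ ZMod 5 ⊕ ZMod 5) (h : gen i k = gen j k)
    (h1 : gen i k ≠ 1) : i = j := by
  have hinj : Function.Injective (algebraMap (ZMod 5) (KK k)) := (algebraMap (ZMod 5) (KK k)).injective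
  have ht : (tt k : KK k) ≠ 0 := (tt k).ne_zero
  rcases i with u | u | u <;> rcases j with v | v | v
  · have := E_inj 0 1 h01 h
    rw [one_mul, one_mul] at this
    rw [hinj this]
  · exact absurd (E_ne 0 1 1 2 h01 h12 (by decide) h) h1
  · exact absurd (E_ne 0 1 2 0 h01 h20 (by decide) h) h1
  · exact absurd (E_ne 1 2 0 1 h12 h01 (by decide) h) h1
  · have := E_inj 1 2 h12 h
    rw [one_mul, one_mul] at this
    rw [hinj this]
  · exact absurd (E_ne 1 2 2 0 h12 h20 (by decide) h) h1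
  · exact absurd (E_ne 2 0 0 1 h20 h01 (by decide) h) h1
  · exact absurd (E_ne 2 0 1 2 h20 h12 (by decide) h) h1
  · have := E_inj 2 0 h20 h
    rw [hinj (mul_left_cancel₀ ht this)]

noncomputable def fam' := fam (fun x => phi (ga x)) (fun x => phi (gb x)) (fun x => phi (gc x)) tauN

theorem fam_cases (i : ZMod 5 ⊕ ZMod 5 ⊕ ZMod 5 ⊕ Unit) :
    (∃ j : ZMod 5 ⊕ ZMod 5 ⊕ ZMod 5, i = (Sum.elim Sum.inl (Sum.elim (fun x => Sum.inr (Sum.inl x))
      (fun x => Sum.inr (Sum.inr (Sum.inl x)))) j) ∧ fam' i = phi (gen j)) ∨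
    (i = Sum.inr (Sum.inr (Sum.inr ())) ∧ fam' i = tauN) := by
  rcases i with u | u | u | u
  · left; exact ⟨Sum.inl u, rfl, rfl⟩
  · left; exact ⟨Sum.inr (Sum.inl u), rfl, rfl⟩
  · left; exact ⟨Sum.inr (Sum.inr u), rfl, rfl⟩
  · right; exact ⟨rfl, rfl⟩

theorem fam_free (i j : ZMod 5 ⊕ ZMod 5 ⊕ ZMod 5 ⊕ Unit) (x : ℕ) (h : fam' i x = fam' j x)
    (h1 : fam' i x ≠ x) : i = j := by
  obtain ⟨⟨k, b, g⟩, rfl⟩ := eY.surjective x
  have aux : ∀ (i' : ZMod 5 ⊕ ZMod 5 ⊕ ZMod 5), phi (gen i') (eY ⟨k, b, g⟩) = tauN (eY ⟨k, b, g⟩) →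
      tauN (eY ⟨k, b, g⟩) = eY ⟨k, b, g⟩ := by
    intro i' hi'
    rw [phi_apply, tauN_apply] at hi'
    have hi2 := eY.injective hi'
    rw [psi_apply] at hi2
    by_cases hg : g = 1
    · subst hg
      rw [tauY_one] at hi2
      exfalso
      simp only [Sigma.mk.injEq, heq_eq_eq, Prod.mk.injEq, true_and] at hi2
      have := hi2.1
      cases b <;> simp at this
    · rw [tauN_apply, tauY_ne k b g hg]
  rcases fam_cases i with ⟨i', rfl, hi⟩ | ⟨rfl, hi⟩ <;> rcases fam_cases j with ⟨j', rfl, hj⟩ | ⟨rfl, hj⟩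
  · rw [hi] at h h1
    rw [hj] at h
    rw [phi_apply, phi_apply] at h
    rw [phi_apply] at h1
    have h2 := eY.injective h
    rw [psi_apply, psi_apply] at h2
    simp only [Sigma.mk.injEq, heq_eq_eq, Prod.mk.injEq, true_and] at h2
    have h3 : gen i' k = gen j' k := mul_right_cancel h2
    have h4 : gen i' k ≠ 1 := by
      intro h5
      apply h1
      rw [psi_apply, h5, one_mul]
    rw [gen_inj k i' j' h3 h4]
  · exfalso
    rw [hi] at h h1
    rw [hj] at h
    apply h1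
    rw [h]; exact aux i' h
  · exfalso
    rw [hi] at h h1
    rw [hj] at h
    apply h1
    exact aux j' h.symm
  · rfl

theorem psi_fst (g : PG) (y : Y) : (psi g y).1 = y.1 := rfl

noncomputable def idxN (n : ℕ) : ℕ := (eY.symm n).1

theorem fam_idx (i) (x : ℕ) : idxN (fam' i x) = idxN x := by
  obtain ⟨y, rfl⟩ := eY.surjective x
  rcases fam_cases i with ⟨i', -, hi⟩ | ⟨-, hi⟩
  · rw [hi, phi_apply]; simp [idxN, psi_fst]
  · rw [hi, tauN_apply]; simp [idxN, tauY_fst]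

theorem closure_phi {g : PG} (hg : g ∈ Γ0) :
    phi g ∈ Subgroup.closure (Set.range (fun x => phi (ga x)) ∪ Set.range (fun x => phi (gb x))
      ∪ Set.range (fun x => phi (gc x))) := by
  have h1 : Subgroup.map phi Γ0 = Subgroup.closure (phi '' (Set.range ga ∪ Set.range gb ∪ Set.range gc)) :=
    MonoidHom.map_closure _ _
  have h2 : phi g ∈ Subgroup.map phi Γ0 := ⟨g, hg, rfl⟩
  rw [h1] at h2
  have h3 : phi '' (Set.range ga ∪ Set.range gb ∪ Set.range gc)
      = (Set.range (fun x => phi (ga x)) ∪ Set.range (fun x => phi (gb x))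
      ∪ Set.range (fun x => phi (gc x))) := by
    rw [Set.image_union, Set.image_union, ← Set.range_comp, ← Set.range_comp, ← Set.range_comp]
    rfl
  rw [h3] at h2
  exact h2

end Pool.Agent.H56R3
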