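import Mathlib

set_option autoImplicit false

open scoped InnerProductSpace ComplexOrder
open ContinuousLinearMap

namespace Pool.Agent.H56R3

/-- the Hilbert space `ℓ²(ℕ)` -/
noncomputable abbrev E2 := lp (fun _ : ℕ => ℂ) 2

/-- the operators -/
noncomputable abbrev B2 := lp (fun _ : ℕ => ℂ) 2 →L[ℂ] lp (fun _ : ℕ => ℂ) 2

/-- basis vectors -/
noncomputable abbrev dl (x : ℕ) : E2 := lp.single 2 x (1 : ℂ)

theorem perm_inv_apply_self (σ : Equiv.Perm ℕ) (x : ℕ) : σ⁻¹ (σ x) = x := σ.symm_apply_apply x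

theorem perm_apply_inv_self (σ : Equiv.Perm ℕ) (x : ℕ) : σ (σ⁻¹ x) = x := σ.apply_symm_apply x

theorem dl_apply_ne {x y : ℕ} (h : y ≠ x) : (dl x : E2) y = 0 :=
  lp.single_apply_ne (E := fun _ : ℕ => ℂ) 2 x (1 : ℂ) h

theorem dl_apply_self (x : ℕ) : (dl x : E2) x = 1 :=
  lp.single_apply_self (E := fun _ : ℕ => ℂ) 2 x (1 : ℂ)

theorem inner_dl (y : ℕ) (f : E2) : inner ℂ (dl y) f = f y := by
  rw [lp.inner_single_left]; simp

theorem norm_sq_eq (f : E2) : ‖f‖ ^ 2 = ∑' x, ‖f x‖ ^ 2 := by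
  have := lp.norm_rpow_eq_tsum (p := 2) (by norm_num) f
  simpa using this

theorem summable_sq (f : E2) : Summable fun x => ‖f x‖ ^ 2 := by
  have := (lp.memℓp f).summable (by norm_num)
  simpa using this

theorem mem_of_summable (f : ℕ → ℂ) (hf : Summable fun x => ‖f x‖ ^ 2) :
    Memℓp f 2 := by
  apply memℓp_gen
  simpa using hf

/-- the permutation operator -/
noncomputable def Uop (σ : Equiv.Perm ℕ) : B2 :=
  LinearMap.mkContinuous
    { toFun := fun f => ⟨fun x => f (σ⁻¹ x), mem_of_summable _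
        ((Equiv.summable_iff (σ⁻¹ : Equiv.Perm ℕ)).mpr (summable_sq f))⟩
      map_add' := fun f g => by
        apply lp.ext; funext x; rfl
      map_smul' := fun c f => by
        apply lp.ext; funext x; rfl } 1 (by
    intro f
    rw [one_mul]
    have h : ‖(⟨fun x => f (σ⁻¹ x), mem_of_summable _
        ((Equiv.summable_iff (σ⁻¹ : Equiv.Perm ℕ)).mpr (summable_sq f))⟩ : E2)‖ ^ 2 = ‖f‖ ^ 2 := by
      rw [norm_sq_eq, norm_sq_eq]
      exact Equiv.tsum_eq (σ⁻¹ : Equiv.Perm ℕ) (fun x => ‖f x‖ ^ 2)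
    have := (sq_eq_sq₀ (norm_nonneg _) (norm_nonneg _)).mp h
    exact le_of_eq this)

theorem Uop_apply (σ : Equiv.Perm ℕ) (f : E2) (x : ℕ) : (Uop σ f) x = f (σ⁻¹ x) := rfl

open Classical in
/-- the multiplication by an indicator function -/
noncomputable def Mop (S : Set ℕ) : B2 :=
  LinearMap.mkContinuous
    { toFun := fun f => ⟨fun x => if x ∈ S then f x else 0, mem_of_summable _
        (Summable.of_nonneg_of_le (fun x => by positivity)
          (fun x => by split_ifs <;> simp) (summable_sq f))⟩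
      map_add' := fun f g => by
        apply lp.ext; funext x
        change (if x ∈ S then (f x + g x) else 0) = (if x ∈ S then f x else 0) + (if x ∈ S then g x else 0)
        split_ifs <;> simp
      map_smul' := fun c f => by
        apply lp.ext; funext x
        change (if x ∈ S then (c * f x) else 0) = c * (if x ∈ S then f x else 0)
        split_ifs <;> simp } 1 (by
    intro f
    rw [one_mul]
    have h : ‖(⟨fun x => if x ∈ S then f x else 0, mem_of_summable _
        (Summable.of_nonneg_of_le (fun x => by positivity)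
          (fun x => by split_ifs <;> simp) (summable_sq f))⟩ : E2)‖ ^ 2 ≤ ‖f‖ ^ 2 := by
      rw [norm_sq_eq, norm_sq_eq]
      apply Summable.tsum_le_tsum
      · intro x
        change ‖(if x ∈ S then f x else 0)‖ ^ 2 ≤ ‖f x‖ ^ 2
        split_ifs <;> simp
      · exact summable_sq _
      · exact summable_sq f
    exact (sq_le_sq₀ (norm_nonneg _) (norm_nonneg _)).mp h)

open Classical in
theorem Mop_apply (S : Set ℕ) (f : E2) (x : ℕ) : (Mop S f) x = if x ∈ S then f x else 0 := rfl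

theorem ext_op {S T : B2} (h : ∀ f x, (S f) x = (T f) x) : S = T := by
  apply ContinuousLinearMap.ext
  intro f
  apply lp.ext
  funext x
  exact h f x

theorem Uop_one : Uop 1 = 1 := ext_op (fun _ _ => rfl)

theorem Uop_mul (σ τ : Equiv.Perm ℕ) : Uop (σ * τ) = Uop σ * Uop τ := by
  apply ext_op
  intro f x
  change f ((σ * τ)⁻¹ x) = f (τ⁻¹ (σ⁻¹ x))
  rw [mul_inv_rev]; rfl

theorem inner_Uop (σ : Equiv.Perm ℕ) (f g : E2) :
    inner ℂ (Uop σ f) g = (inner ℂ f (Uop σ⁻¹ g) : ℂ) := by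
  rw [lp.inner_eq_tsum, lp.inner_eq_tsum]
  rw [← Equiv.tsum_eq σ (fun x => inner ℂ ((Uop σ f) x) (g x))]
  congr 1
  funext x
  rw [Uop_apply, Uop_apply, perm_inv_apply_self, inv_inv]

theorem star_Uop (σ : Equiv.Perm ℕ) : star (Uop σ) = Uop σ⁻¹ := by
  rw [ContinuousLinearMap.star_eq_adjoint]
  symm
  rw [ContinuousLinearMap.eq_adjoint_iff]
  intro x y
  rw [inner_Uop, inv_inv]

theorem Mop_mul (S T : Set ℕ) : Mop S * Mop T = Mop (S ∩ T) := by
  apply ext_op
  intro f x
  rw [mul_apply_eq_comp, Mop_apply, Mop_apply, Mop_apply]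
  by_cases h1 : x ∈ S <;> by_cases h2 : x ∈ T <;> simp [h1, h2]

theorem star_Mop (S : Set ℕ) : star (Mop S) = Mop S := by
  rw [ContinuousLinearMap.star_eq_adjoint]
  symm
  rw [ContinuousLinearMap.eq_adjoint_iff]
  intro f g
  rw [lp.inner_eq_tsum, lp.inner_eq_tsum]
  congr 1
  funext x
  rw [Mop_apply, Mop_apply]
  split_ifs <;> simp

theorem Mop_univ : Mop Set.univ = 1 := by
  apply ext_op
  intro f x
  rw [Mop_apply]; simp

theorem Mop_add {S T : Set ℕ} (h : Disjoint S T) : Mop S + Mop T = Mop (S ∪ T) := by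
  apply ext_op
  intro f x
  have : (Mop S + Mop T) f = Mop S f + Mop T f := rfl
  rw [this, lp.coeFn_add, Pi.add_apply, Mop_apply, Mop_apply, Mop_apply]
  have hd : x ∈ S → x ∉ T := fun h1 h2 => Set.disjoint_left.mp h h1 h2
  by_cases h1 : x ∈ S
  · have h2 := hd h1
    simp [h1, h2]
  · by_cases h2 : x ∈ T <;> simp [h1, h2]

theorem conj_Mop (σ : Equiv.Perm ℕ) (S : Set ℕ) :
    Uop σ * Mop S * Uop σ⁻¹ = Mop (σ '' S) := by
  apply ext_op
  intro f x
  rw [mul_apply_eq_comp, mul_apply_eq_comp, Uop_apply, Mop_apply,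
    Mop_apply, Uop_apply]
  have : x ∈ σ '' S ↔ σ⁻¹ x ∈ S := by
    constructor
    · rintro ⟨y, hy, rfl⟩; simpa using hy
    · intro h; exact ⟨σ⁻¹ x, h, by simp⟩
  by_cases h : σ⁻¹ x ∈ S
  · rw [if_pos h, if_pos (this.mpr h), inv_inv, perm_apply_inv_self]
  · rw [if_neg h, if_neg (fun h' => h (this.mp h'))]

/-- finite propagation -/
def InP (G : SimpleGraph ℕ) (T : B2) : Prop :=
  ∃ R : ℕ, ∀ x y : ℕ, inner ℂ (dl y) (T (dl x)) ≠ 0 → G.edist x y ≤ (R : ℕ∞)

/-- ghosts -/
def InGh (T : B2) : Prop :=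
  ∀ ε : ℝ, 0 < ε → ∃ F : Finset ℕ, ∀ x y : ℕ, x ∉ F → ‖inner ℂ (dl y) (T (dl x))‖ < ε

theorem InP.add {G : SimpleGraph ℕ} {S T : B2} (hS : InP G S) (hT : InP G T) : InP G (S + T) := by
  obtain ⟨R1, h1⟩ := hS
  obtain ⟨R2, h2⟩ := hT
  refine ⟨max R1 R2, fun x y h => ?_⟩
  rw [_root_.add_apply, inner_add_right] at h
  by_cases h3 : inner ℂ (dl y) (S (dl x)) = 0
  · have h4 : inner ℂ (dl y) (T (dl x)) ≠ 0 := by
      intro h4; apply h; rw [h3, h4, add_zero]
    exact le_trans (h2 x y h4) (by exact_mod_cast le_max_right _ _)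
  · exact le_trans (h1 x y h3) (by exact_mod_cast le_max_left _ _)

theorem InP.smul {G : SimpleGraph ℕ} {T : B2} (c : ℂ) (hT : InP G T) : InP G (c • T) := by
  obtain ⟨R, h1⟩ := hT
  refine ⟨R, fun x y h => h1 x y ?_⟩
  rw [_root_.smul_apply, inner_smul_right] at h
  exact right_ne_zero_of_mul h

theorem InP.neg {G : SimpleGraph ℕ} {T : B2} (hT : InP G T) : InP G (-T) := by
  have := hT.smul (-1)
  simpa using this

theorem InP.sub {G : SimpleGraph ℕ} {S T : B2} (hS : InP G S) (hT : InP G T) : InP G (S - T) := by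
  rw [sub_eq_add_neg]; exact hS.add hT.neg

theorem InP.adj {G : SimpleGraph ℕ} {T : B2} (hT : InP G T) : InP G (star T) := by
  obtain ⟨R, h1⟩ := hT
  refine ⟨R, fun x y h => ?_⟩
  rw [SimpleGraph.edist_comm]
  apply h1 y x
  intro h2
  apply h
  rw [ContinuousLinearMap.star_eq_adjoint, ContinuousLinearMap.adjoint_inner_right,
    ← inner_conj_symm, h2, map_zero]

theorem InP.mul {G : SimpleGraph ℕ} {S T : B2} (hS : InP G S) (hT : InP G T) : InP G (S * T) := by
  obtain ⟨R1, h1⟩ := hS.adj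
  obtain ⟨R2, h2⟩ := hT
  refine ⟨R2 + R1, fun x y h => ?_⟩
  have h3 : inner ℂ (dl y) ((S * T) (dl x)) = ∑' z, inner ℂ ((star S (dl y) : E2) z) ((T (dl x) : E2) z) := by
    rw [← lp.inner_eq_tsum, ContinuousLinearMap.star_eq_adjoint,
      ContinuousLinearMap.adjoint_inner_left]
    rfl
  rw [h3] at h
  have h4 : ∃ z, (inner ℂ ((star S (dl y) : E2) z) ((T (dl x) : E2) z) : ℂ) ≠ 0 := by
    by_contra hcon
    push Not at hcon
    apply h
    simp only [hcon, tsum_zero]
  obtain ⟨z, hz⟩ := h4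
  have hz1 : (T (dl x) : E2) z ≠ 0 := by
    intro h5; apply hz; rw [h5, inner_zero_right]
  have hz2 : (star S (dl y) : E2) z ≠ 0 := by
    intro h5; apply hz; rw [h5, inner_zero_left]
  have e1 := h2 x z (by rw [inner_dl]; exact hz1)
  have e2 := h1 y z (by rw [inner_dl]; exact hz2)
  rw [SimpleGraph.edist_comm] at e2
  calc G.edist x y ≤ G.edist x z + G.edist z y := SimpleGraph.edist_triangle
    _ ≤ R2 + R1 := add_le_add e1 e2
    _ = ((R2 + R1 : ℕ) : ℕ∞) := by push_cast; rfl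

theorem InP.Mop (G : SimpleGraph ℕ) (S : Set ℕ) : InP G (Mop S) := by
  classical
  refine ⟨0, fun x y h => ?_⟩
  rw [inner_dl, Mop_apply] at h
  have h1 : (dl x : E2) y ≠ 0 := by
    intro h2; apply h; rw [h2]; simp
  have h3 : x = y := by
    by_contra hne
    apply h1
    exact dl_apply_ne (fun h => hne h.symm)
  rw [h3]; simp

theorem InP.one (G : SimpleGraph ℕ) : InP G (1 : B2) := by
  rw [← Mop_univ]; exact InP.Mop G _

theorem InP.zero (G : SimpleGraph ℕ) : InP G (0 : B2) := by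
  refine ⟨0, fun x y h => ?_⟩
  simp at h

theorem InP.sum {G : SimpleGraph ℕ} {ι : Type*} (s : Finset ι) (f : ι → B2)
    (h : ∀ i ∈ s, InP G (f i)) : InP G (∑ i ∈ s, f i) := by
  classical
  induction s using Finset.induction_on with
  | empty => simpa using InP.zero G
  | insert a s ha ih =>
    rw [Finset.sum_insert ha]
    exact (h a (Finset.mem_insert_self _ _)).add (ih (fun i hi => h i (Finset.mem_insert_of_mem hi)))

theorem Uop_dl (σ : Equiv.Perm ℕ) (x : ℕ) : Uop σ (dl x) = dl (σ x) := by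
  apply lp.ext
  funext y
  rw [Uop_apply]
  by_cases h : y = σ x
  · subst h
    have : σ⁻¹ (σ x) = x := by simp
    rw [this, dl_apply_self, dl_apply_self]
  · rw [dl_apply_ne, dl_apply_ne h]
    intro h2
    apply h
    rw [← h2, perm_apply_inv_self]

theorem InP.Uop {G : SimpleGraph ℕ} (σ : Equiv.Perm ℕ) (R : ℕ)
    (h : ∀ x, G.edist x (σ x) ≤ (R : ℕ∞)) : InP G (Uop σ) := by
  refine ⟨R, fun x y h1 => ?_⟩
  rw [inner_dl, Uop_dl] at h1
  have h3 : σ x = y := by
    by_contra hne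
    apply h1
    exact dl_apply_ne (fun h => hne h.symm)
  rw [← h3]; exact h x

theorem InGh.Mop_finite {S : Set ℕ} (hS : S.Finite) : InGh (Mop S) := by
  classical
  intro ε hε
  refine ⟨hS.toFinset, fun x y hx => ?_⟩
  rw [inner_dl, Mop_apply]
  have : (if y ∈ S then (dl x : E2) y else 0) = 0 := by
    split_ifs with h
    · apply dl_apply_ne
      intro h2
      apply hx
      rw [← h2]
      simpa using h
    · rfl
  rw [this]; simpa using hε

end Pool.Agent.H56R3
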