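import Pool.Agent.H56R3.Graph

set_option autoImplicit false

open scoped InnerProductSpace ComplexOrder
open ContinuousLinearMap

namespace Pool.Agent.H56R3

/-- the family of permutations -/
def fam {p : ℕ} (a b c : ZMod p → Equiv.Perm ℕ) (τ : Equiv.Perm ℕ) :
    ZMod p ⊕ ZMod p ⊕ ZMod p ⊕ Unit → Equiv.Perm ℕ :=
  Sum.elim a (Sum.elim b (Sum.elim c (fun _ => τ)))

/-- the inversion on the index set -/
def famInv (p : ℕ) : (ZMod p ⊕ ZMod p ⊕ ZMod p ⊕ Unit) ≃ (ZMod p ⊕ ZMod p ⊕ ZMod p ⊕ Unit) :=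
  Equiv.sumCongr (Equiv.neg _) (Equiv.sumCongr (Equiv.neg _) (Equiv.sumCongr (Equiv.neg _)
    (Equiv.refl _)))

/-- The combinatorial data from which the graph is built. -/
structure Data (p : ℕ) [Fact p.Prime] where
  a : ZMod p → Equiv.Perm ℕ
  b : ZMod p → Equiv.Perm ℕ
  c : ZMod p → Equiv.Perm ℕ
  zab : ZMod p → Equiv.Perm ℕ
  zbc : ZMod p → Equiv.Perm ℕ
  zca : ZMod p → Equiv.Perm ℕ
  τ : Equiv.Perm ℕ
  hab : HeisG a b zab
  hbc : HeisG b c zbc
  hca : HeisG c a zca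
  hτ : τ * τ = 1
  free : ∀ i j x, fam a b c τ i x = fam a b c τ j x → fam a b c τ i x ≠ x → i = j
  idx : ℕ → ℕ
  idx_fin : ∀ k, {x | idx x = k}.Finite
  idx_pres : ∀ i x, idx (fam a b c τ i x) = idx x
  disj : ∀ m : ℕ, ∃ g : Fin m → Equiv.Perm ℕ,
      (∀ i, g i ∈ Subgroup.closure (Set.range a ∪ Set.range b ∪ Set.range c)) ∧
      ∃ F : Set ℕ, F.Finite ∧ ∀ i j : Fin m, ∀ x y : ℕ, x ∈ {x | τ x ≠ x} → x ∉ F →
        y ∈ {x | τ x ≠ x} → y ∉ F → g i x = g j y → i = j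
  big : ∀ N : ℕ, ∃ O O' : Finset ℕ, N ≤ O.card ∧ O.card = O'.card ∧ Disjoint O O' ∧
    ∃ x0 ∈ O, ∃ x0' ∈ O', τ x0 = x0' ∧
      (∀ x ∈ O, x ≠ x0 → τ x = x) ∧ (∀ x ∈ O', x ≠ x0' → τ x = x) ∧
      (∀ σ ∈ Set.range a ∪ Set.range b ∪ Set.range c, ∀ x, x ∈ O → σ x ∈ O) ∧
      (∀ σ ∈ Set.range a ∪ Set.range b ∪ Set.range c, ∀ x, x ∈ O' → σ x ∈ O') ∧
      (∀ w : ℕ → ℂ, (∀ i x, w (fam a b c τ i x) = w x) →
        (∀ x ∈ O, w x = w x0) ∧ (∀ x ∈ O', w x = w x0))

variable {p : ℕ} [Fact p.Prime] (D : Data p)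

namespace Data

/-- the family -/
def s : ZMod p ⊕ ZMod p ⊕ ZMod p ⊕ Unit → Equiv.Perm ℕ := fam D.a D.b D.c D.τ

theorem hinv (i) : D.s (famInv p i) = (D.s i)⁻¹ := by
  rcases i with u | u | u | u
  · exact add_neg_inv D.hab.a_add u
  · exact add_neg_inv D.hab.b_add u
  · exact add_neg_inv D.hca.a_add u
  · exact (inv_eq_of_mul_eq_one_left D.hτ).symm

/-- the graph -/
def G : SimpleGraph ℕ := permGraph D.s (famInv p) D.hinv

theorem lap_eq : lap D.s = (∑ x, (1 - Uop (D.a x))) + (∑ x, (1 - Uop (D.b x)))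
    + (∑ x, (1 - Uop (D.c x))) + (1 - Uop D.τ) := by
  unfold lap
  rw [Fintype.sum_sum_type, Fintype.sum_sum_type, Fintype.sum_sum_type]
  simp only [Finset.univ_unique, Finset.sum_singleton]
  rw [← add_assoc, ← add_assoc]
  rfl

theorem InP_a (x : ZMod p) : InP D.G (Uop (D.a x)) := InP_perm D.s (famInv p) D.hinv (Sum.inl x)
theorem InP_b (x : ZMod p) : InP D.G (Uop (D.b x)) :=
  InP_perm D.s (famInv p) D.hinv (Sum.inr (Sum.inl x))
theorem InP_c (x : ZMod p) : InP D.G (Uop (D.c x)) :=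
  InP_perm D.s (famInv p) D.hinv (Sum.inr (Sum.inr (Sum.inl x)))
theorem InP_τ : InP D.G (Uop D.τ) :=
  InP_perm D.s (famInv p) D.hinv (Sum.inr (Sum.inr (Sum.inr ())))

/-- not an expander -/
theorem no_gap : ¬ ∃ c : ℝ, 0 < c ∧ spectrum ℂ (lap D.s) ⊆ gapSet c := by
  rintro ⟨c, hc, hspec⟩
  obtain ⟨N, hN⟩ := exists_nat_gt (8 / c)
  obtain ⟨O, O', hNO, hcard, hdis, x0, hx0, x0', hx0', hτx, hτO, hτO', hinvO, hinvO', hw⟩ := D.big N
  have hτinv : D.τ⁻¹ = D.τ := inv_eq_of_mul_eq_one_left D.hτ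
  have hττ : ∀ x, D.τ (D.τ x) = x := by
    intro x
    have := congrArg (fun σ : Equiv.Perm ℕ => σ x) D.hτ
    simpa using this
  have hdis' : ∀ x, x ∈ O → x ∉ O' := fun x h1 h2 => Finset.disjoint_left.mp hdis h1 h2
  set f : E2 := ∑ x ∈ O, dl x - ∑ x ∈ O', dl x with hf
  have hsumdl : ∀ (S : Finset ℕ) (y : ℕ), ((∑ x ∈ S, dl x : E2) : ℕ → ℂ) y
      = if y ∈ S then 1 else 0 := by
    intro S y
    rw [← inner_dl, inner_sum]
    simp only [inner_dl]
    by_cases hy : y ∈ S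
    · rw [if_pos hy, Finset.sum_eq_single y]
      · exact dl_apply_self y
      · intro z _ hz; exact dl_apply_ne (fun h => hz h.symm)
      · intro h; exact absurd hy h
    · rw [if_neg hy]
      apply Finset.sum_eq_zero
      intro z hz
      apply dl_apply_ne
      rintro rfl
      exact hy hz
  have hfy : ∀ y, (f : ℕ → ℂ) y = (if y ∈ O then 1 else 0) - (if y ∈ O' then 1 else 0) := by
    intro y
    rw [hf, lp.coeFn_sub, Pi.sub_apply, hsumdl, hsumdl]
  have hinner : ∀ w : E2, inner ℂ f w = (∑ x ∈ O, w x - ∑ x ∈ O', w x : ℂ) := by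
    intro w
    rw [hf, inner_sub_left, sum_inner, sum_inner]
    simp only [inner_dl]
  have hnorm : ‖f‖ ^ 2 = 2 * (O.card : ℝ) := by
    rw [norm_sq_re, hinner]
    have e1 : ∑ x ∈ O, (f : ℕ → ℂ) x = (O.card : ℂ) := by
      rw [Finset.sum_congr rfl (g := fun _ => (1 : ℂ))]
      · simp
      · intro x hx
        rw [hfy, if_pos hx, if_neg (hdis' x hx), sub_zero]
    have e2 : ∑ x ∈ O', (f : ℕ → ℂ) x = -(O'.card : ℂ) := by
      rw [Finset.sum_congr rfl (g := fun _ => (-1 : ℂ))]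
      · simp
      · intro x hx
        rw [hfy, if_pos hx, if_neg (fun h => hdis' x h hx), zero_sub]
    rw [e1, e2, ← hcard]
    simp; ring
  have hsa := lap_sa D.s (famInv p) D.hinv
  have hgap := gap_of_spectrum (lap D.s) hsa c hspec f (by
    intro w hw0
    have h1 := lap_ker D.s w hw0
    obtain ⟨h2, h3⟩ := hw (fun x => w x) h1
    rw [← inner_conj_symm, hinner, Finset.sum_congr rfl h2, Finset.sum_congr rfl h3,
      Finset.sum_const, Finset.sum_const, hcard, sub_self, map_zero])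
  rw [lap_form] at hgap
  -- the three subgroups fix f
  have hfix : ∀ σ ∈ Set.range D.a ∪ Set.range D.b ∪ Set.range D.c,
      σ⁻¹ ∈ Set.range D.a ∪ Set.range D.b ∪ Set.range D.c → Uop σ f = f := by
    intro σ hσ hσ'
    apply lp.ext
    funext y
    rw [Uop_apply, hfy, hfy]
    have e1 : σ⁻¹ y ∈ O ↔ y ∈ O := by
      constructor
      · intro h; have := hinvO σ hσ _ h; rwa [perm_apply_inv_self] at this
      · intro h; exact hinvO _ hσ' _ h
    have e2 : σ⁻¹ y ∈ O' ↔ y ∈ O' := by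
      constructor
      · intro h; have := hinvO' σ hσ _ h; rwa [perm_apply_inv_self] at this
      · intro h; exact hinvO' _ hσ' _ h
    simp only [e1, e2]
  have hfa : ∀ x, Uop (D.a x) f = f := fun x => hfix _ (Or.inl (Or.inl ⟨x, rfl⟩))
    (Or.inl (Or.inl ⟨-x, add_neg_inv D.hab.a_add x⟩))
  have hfb : ∀ x, Uop (D.b x) f = f := fun x => hfix _ (Or.inl (Or.inr ⟨x, rfl⟩))
    (Or.inl (Or.inr ⟨-x, add_neg_inv D.hab.b_add x⟩))
  have hfc : ∀ x, Uop (D.c x) f = f := fun x => hfix _ (Or.inr ⟨x, rfl⟩)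
    (Or.inr ⟨-x, add_neg_inv D.hca.a_add x⟩)
  have hfτ : f - Uop D.τ f = (2 : ℂ) • dl x0 - (2 : ℂ) • dl x0' := by
    apply lp.ext
    funext y
    rw [lp.coeFn_sub, Pi.sub_apply, Uop_apply, hτinv, hfy, hfy, lp.coeFn_sub, Pi.sub_apply,
      lp.coeFn_smul, lp.coeFn_smul, Pi.smul_apply, Pi.smul_apply]
    have hne : x0 ≠ x0' := fun h => hdis' x0 hx0 (h ▸ hx0')
    have hτx' : D.τ x0' = x0 := by rw [← hτx, hττ]
    have hx0n : x0 ∉ O' := hdis' x0 hx0
    have hx0n' : x0' ∉ O := fun h => hdis' x0' h hx0'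
    by_cases h1 : y = x0
    · subst h1
      rw [hτx, dl_apply_self, dl_apply_ne hne]
      simp [hx0, hx0', hx0n, hx0n']; norm_num
    · by_cases h2 : y = x0'
      · subst h2
        rw [hτx', dl_apply_self, dl_apply_ne hne.symm]
        simp [hx0, hx0', hx0n, hx0n']; norm_num
      · rw [dl_apply_ne h1, dl_apply_ne h2]
        by_cases h3 : y ∈ O
        · rw [hτO y h3 h1]; simp
        · by_cases h4 : y ∈ O'
          · rw [hτO' y h4 h2]; simp
          · have h5 : D.τ y ∉ O := by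
              intro h5
              by_cases h6 : D.τ y = x0
              · apply h2; rw [← hττ y, h6, hτx]
              · have := hτO _ h5 h6
                rw [hττ] at this
                rw [← this] at h5; exact h3 h5
            have h5' : D.τ y ∉ O' := by
              intro h5
              by_cases h6 : D.τ y = x0'
              · apply h1; rw [← hττ y, h6, hτx']
              · have := hτO' _ h5 h6
                rw [hττ] at this
                rw [← this] at h5; exact h4 h5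
            simp [h3, h4, h5, h5']
  have hnτ : ‖f - Uop D.τ f‖ ^ 2 ≤ 16 := by
    rw [hfτ]
    have h1 : ‖(2 : ℂ) • dl x0 - (2 : ℂ) • dl x0'‖ ≤ 4 := by
      refine le_trans (norm_sub_le _ _) ?_
      rw [norm_smul, norm_smul, lp.norm_single (by norm_num), lp.norm_single (by norm_num)]
      norm_num
    nlinarith [norm_nonneg ((2 : ℂ) • dl x0 - (2 : ℂ) • dl x0')]
  have hsum : ∑ i, ‖f - Uop (D.s i) f‖ ^ 2 ≤ 16 := by
    rw [Fintype.sum_sum_type, Fintype.sum_sum_type, Fintype.sum_sum_type]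
    have ea : ∀ x, Uop (D.s (Sum.inl x)) f = f := hfa
    have eb : ∀ x, Uop (D.s (Sum.inr (Sum.inl x))) f = f := hfb
    have ec : ∀ x, Uop (D.s (Sum.inr (Sum.inr (Sum.inl x)))) f = f := hfc
    have eτ : D.s (Sum.inr (Sum.inr (Sum.inr ()))) = D.τ := rfl
    simp only [ea, eb, ec, sub_self, norm_zero, Finset.univ_unique, Finset.sum_singleton]
    simp only [ne_eq, OfNat.ofNat_ne_zero, not_false_eq_true, zero_pow, Finset.sum_const_zero,
      zero_add]
    exact hnτ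
  rw [hnorm] at hgap
  have h8 : c * (2 * (O.card : ℝ)) ≤ 8 := by linarith
  have h9 : (N : ℝ) ≤ O.card := by exact_mod_cast hNO
  rw [div_lt_iff₀ hc] at hN
  nlinarith

end Data

end Pool.Agent.H56R3
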