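import Pool.Agent.H56R3.Rep2

set_option autoImplicit false

open scoped InnerProductSpace ComplexOrder
open ContinuousLinearMap

namespace Pool.Agent.H56R3

section graph

variable {ι : Type*} [Fintype ι] (s : ι → Equiv.Perm ℕ)

/-- the graph of a finite family of permutations closed under inverses -/
def permGraph (jj : ι ≃ ι) (hinv : ∀ i, s (jj i) = (s i)⁻¹) : SimpleGraph ℕ where
  Adj x y := x ≠ y ∧ ∃ i, s i x = y
  symm := ⟨by
    rintro x y ⟨hxy, i, hi⟩
    refine ⟨hxy.symm, jj i, ?_⟩
    rw [hinv, ← hi, perm_inv_apply_self]⟩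
  loopless := ⟨by rintro x ⟨h, -⟩; exact h rfl⟩

/-- its Laplacian -/
noncomputable def lap : B2 := ∑ i, (1 - Uop (s i))

theorem inner_lap (x y : ℕ) : inner ℂ (dl y) (lap s (dl x))
    = ∑ i, ((if x = y then (1 : ℂ) else 0) - (if s i x = y then 1 else 0)) := by
  unfold lap
  have h1 : (∑ i, (1 - Uop (s i))) (dl x) = ∑ i, (dl x - dl (s i x)) := by
    rw [_root_.sum_apply]
    apply Finset.sum_congr rfl
    intro i _
    have : (1 - Uop (s i)) (dl x) = dl x - Uop (s i) (dl x) := rfl
    rw [this, Uop_dl]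
  rw [h1, inner_sum]
  apply Finset.sum_congr rfl
  intro i _
  rw [inner_sub_right, inner_dl, inner_dl]
  congr 1
  · split_ifs with h
    · rw [h]; exact dl_apply_self y
    · exact dl_apply_ne (fun h' => h h'.symm)
  · split_ifs with h
    · rw [h]; exact dl_apply_self y
    · exact dl_apply_ne (fun h' => h h'.symm)

variable (jj : ι ≃ ι) (hinv : ∀ i, s (jj i) = (s i)⁻¹)
  (hfree : ∀ i j x, s i x = s j x → s i x ≠ x → i = j)

include hfree in
theorem neighbor_ncard [DecidableEq ι] (x : ℕ) :
    ((permGraph s jj hinv).neighborSet x).Finite ∧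
    ((permGraph s jj hinv).neighborSet x).ncard = (Finset.univ.filter (fun i => s i x ≠ x)).card := by
  classical
  have h1 : (permGraph s jj hinv).neighborSet x
      = ((Finset.univ.filter (fun i => s i x ≠ x)).image (fun i => s i x) : Finset ℕ) := by
    ext y
    simp only [SimpleGraph.mem_neighborSet, Finset.coe_image, Set.mem_image, Finset.mem_coe,
      Finset.mem_filter, Finset.mem_univ, true_and]
    constructor
    · rintro ⟨hxy, i, hi⟩
      exact ⟨i, by rw [hi]; exact hxy.symm, hi⟩
    · rintro ⟨i, hi, rfl⟩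
      exact ⟨hi.symm, i, rfl⟩
  rw [h1]
  refine ⟨Finset.finite_toSet _, ?_⟩
  rw [Set.ncard_coe_finset, Finset.card_image_of_injOn]
  intro i hi j hj hij
  simp only [Finset.coe_filter, Finset.mem_univ, true_and, Set.mem_ofPred_eq] at hi hj
  exact hfree i j x hij hi

include hfree in
theorem lap_diag [DecidableEq ι] (x : ℕ) : inner ℂ (dl x) (lap s (dl x))
    = (((permGraph s jj hinv).neighborSet x).ncard : ℂ) := by
  rw [(neighbor_ncard s jj hinv hfree x).2, inner_lap]
  simp only [if_true]
  rw [Finset.card_filter]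
  push_cast
  apply Finset.sum_congr rfl
  intro i _
  by_cases h : s i x = x <;> simp [h]

include hfree in
theorem lap_adj [DecidableEq ι] (x y : ℕ) (h : (permGraph s jj hinv).Adj x y) :
    inner ℂ (dl y) (lap s (dl x)) = -1 := by
  obtain ⟨hxy, i, hi⟩ := h
  rw [inner_lap]
  simp only [if_neg hxy, zero_sub]
  rw [Finset.sum_neg_distrib]
  congr 1
  rw [Finset.sum_eq_single i]
  · simp [hi]
  · intro j _ hj
    rw [if_neg]
    intro h2
    apply hj
    exact hfree j i x (by rw [h2, hi]) (by rw [h2]; exact hxy.symm)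
  · intro h; exact absurd (Finset.mem_univ _) h

theorem lap_nonadj (x y : ℕ) (hxy : x ≠ y) (h : ¬ (permGraph s jj hinv).Adj x y) :
    inner ℂ (dl y) (lap s (dl x)) = 0 := by
  rw [inner_lap]
  apply Finset.sum_eq_zero
  intro i _
  rw [if_neg hxy, if_neg, sub_zero]
  intro h2
  exact h ⟨hxy, i, h2⟩

theorem InP_perm (i : ι) : InP (permGraph s jj hinv) (Uop (s i)) := by
  apply InP.Uop (s i) 1
  intro x
  by_cases h : s i x = x
  · rw [h]; simp
  · have : (permGraph s jj hinv).Adj x (s i x) := ⟨fun h' => h h'.symm, i, rfl⟩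
    have h2 : (permGraph s jj hinv).edist x (s i x) ≤ 1 := by
      rw [SimpleGraph.edist_le_one_iff_adj_or_eq]
      left; exact this
    simpa using h2

omit [Fintype ι] in
include hinv in
theorem reach_idx (idx : ℕ → ℕ) (hidx : ∀ i x, idx (s i x) = idx x) (x y : ℕ)
    (h : (permGraph s jj hinv).Reachable x y) : idx y = idx x := by
  obtain ⟨w⟩ := h
  induction w with
  | nil => rfl
  | cons h _ ih =>
    obtain ⟨-, i, hi⟩ := h
    rw [ih, ← hi, hidx]

/-- quadratic form of the Laplacian -/
theorem lap_form (f : E2) : (inner ℂ (lap s f) f : ℂ).re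
    = 2⁻¹ * ∑ i, ‖f - Uop (s i) f‖ ^ 2 := by
  unfold lap
  rw [_root_.sum_apply, sum_inner, Complex.re_sum, Finset.mul_sum]
  apply Finset.sum_congr rfl
  intro i _
  have e0 : (1 - Uop (s i)) f = f - Uop (s i) f := rfl
  rw [e0]
  have hre : ∀ x y : E2, (inner ℂ x y : ℂ).re = (inner ℂ y x : ℂ).re := by
    intro x y; rw [← inner_conj_symm x y]; exact Complex.conj_re _
  have e2 : (inner ℂ (Uop (s i) f) (Uop (s i) f) : ℂ) = inner ℂ f f := by
    rw [inner_Uop, ← mul_apply_eq_comp, ← Uop_mul, inv_mul_cancel, Uop_one]; rfl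
  rw [norm_sq_re (f - Uop (s i) f)]
  simp only [inner_sub_left, inner_sub_right, Complex.sub_re, e2]
  rw [hre f (Uop (s i) f)]
  ring

theorem lap_ker (f : E2) (h : lap s f = 0) (i : ι) (x : ℕ) : f (s i x) = f x := by
  have h1 := lap_form s f
  rw [h, inner_zero_left, Complex.zero_re] at h1
  have h2 : ∑ i, ‖f - Uop (s i) f‖ ^ 2 = 0 := by linarith
  rw [Finset.sum_eq_zero_iff_of_nonneg (fun i _ => sq_nonneg _)] at h2
  have h3 := h2 i (Finset.mem_univ _)
  have h4 : ‖f - Uop (s i) f‖ = 0 := by simpa using h3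
  have h5 : f = Uop (s i) f := sub_eq_zero.mp (norm_eq_zero.mp h4)
  have h6 : f (s i x) = (Uop (s i) f) (s i x) := by rw [← h5]
  rw [h6, Uop_apply, perm_inv_apply_self]

include hinv in
theorem lap_sa : IsSelfAdjoint (lap s) := by
  -- symmetric since the family is closed under inverses: use the quadratic form approach
  rw [isSelfAdjoint_iff]
  apply ContinuousLinearMap.ext
  intro f
  -- compare matrix coefficients
  apply lp.ext
  funext y
  rw [← inner_dl, ← inner_dl, ContinuousLinearMap.star_eq_adjoint,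
    ContinuousLinearMap.adjoint_inner_right]
  -- `lap s (dl y)` is explicit
  have h1 : ∀ y, lap s (dl y) = ∑ i, (dl y - dl (s i y)) := by
    intro y
    unfold lap
    rw [_root_.sum_apply]
    apply Finset.sum_congr rfl
    intro i _
    have : (1 - Uop (s i)) (dl y) = dl y - Uop (s i) (dl y) := rfl
    rw [this, Uop_dl]
  rw [h1, sum_inner]
  have h2 : inner ℂ (dl y) (lap s f) = ∑ i, (f y - f ((s i)⁻¹ y)) := by
    unfold lap
    rw [_root_.sum_apply, inner_sum]
    apply Finset.sum_congr rfl
    intro i _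
    have e0 : (1 - Uop (s i)) f = f - Uop (s i) f := rfl
    rw [e0, inner_sub_right, inner_dl, inner_dl, Uop_apply]
  rw [h2]
  simp only [inner_sub_left, inner_dl]
  rw [Finset.sum_sub_distrib, Finset.sum_sub_distrib]
  congr 1
  rw [← Equiv.sum_comp jj (fun i => f (s i y))]
  simp only [hinv]

end graph

end Pool.Agent.H56R3
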