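import Mathlib

set_option autoImplicit false

open scoped InnerProductSpace ComplexOrder
open ContinuousLinearMap

namespace Pool.Agent.H56R3

variable {H : Type*} [NormedAddCommGroup H] [InnerProductSpace ℂ H]
variable {p : ℕ} [Fact p.Prime]

/-- the averaging operator of a family indexed by `ZMod p` -/
noncomputable def avg (A : ZMod p → (H →L[ℂ] H)) : H →L[ℂ] H := (p : ℂ)⁻¹ • ∑ x, A x

/-- a unitary representation of `ZMod p` -/
structure IsURep (A : ZMod p → (H →L[ℂ] H)) : Prop where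
  zero : A 0 = 1
  add : ∀ x y, A (x + y) = A x * A y
  adj : ∀ x (v w : H), inner ℂ (A x v) w = (inner ℂ v (A (-x) w) : ℂ)

theorem p_ne_zero (p : ℕ) [Fact p.Prime] : (p : ℂ) ≠ 0 := by
  exact_mod_cast (Fact.out : p.Prime).ne_zero

theorem avg_mul_right {A : ZMod p → (H →L[ℂ] H)} (hA : IsURep A) (x : ZMod p) :
    avg A * A x = avg A := by
  unfold avg
  rw [smul_mul_assoc, Finset.sum_mul]
  congr 1
  rw [← Equiv.sum_comp (Equiv.addRight x) (fun y => A y)]
  apply Finset.sum_congr rfl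
  intro y _
  rw [Equiv.coe_addRight, hA.add]

theorem avg_mul_left {A : ZMod p → (H →L[ℂ] H)} (hA : IsURep A) (x : ZMod p) :
    A x * avg A = avg A := by
  unfold avg
  rw [mul_smul_comm, Finset.mul_sum]
  congr 1
  rw [← Equiv.sum_comp (Equiv.addLeft x) (fun y => A y)]
  apply Finset.sum_congr rfl
  intro y _
  rw [Equiv.coe_addLeft, hA.add]

theorem avg_sq {A : ZMod p → (H →L[ℂ] H)} (hA : IsURep A) : avg A * avg A = avg A := by
  have h1 : avg A * avg A = (p : ℂ)⁻¹ • ∑ x, A x * avg A := by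
    rw [← Finset.sum_mul, ← smul_mul_assoc]; rfl
  rw [h1]
  simp only [avg_mul_left hA]
  rw [Finset.sum_const, Finset.card_univ, ZMod.card, ← Nat.cast_smul_eq_nsmul ℂ, smul_smul,
    inv_mul_cancel₀ (p_ne_zero p), one_smul]

theorem avg_sq_apply {A : ZMod p → (H →L[ℂ] H)} (hA : IsURep A) (v : H) :
    avg A (avg A v) = avg A v := by
  have := congrArg (fun T : H →L[ℂ] H => T v) (avg_sq hA)
  simpa using this

theorem avg_apply (A : ZMod p → (H →L[ℂ] H)) (v : H) :
    avg A v = (p : ℂ)⁻¹ • ∑ x, A x v := by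
  simp [avg]

theorem avg_sym {A : ZMod p → (H →L[ℂ] H)} (hA : IsURep A) (v w : H) :
    inner ℂ (avg A v) w = (inner ℂ v (avg A w) : ℂ) := by
  rw [avg_apply, avg_apply, inner_smul_left, inner_smul_right, sum_inner, inner_sum]
  congr 1
  · simp
  · rw [← Equiv.sum_comp (Equiv.neg (ZMod p)) (fun y => inner ℂ v (A y w))]
    apply Finset.sum_congr rfl
    intro x _
    rw [hA.adj x v w]; rfl

theorem avg_commute {A : ZMod p → (H →L[ℂ] H)} {T : H →L[ℂ] H} (h : ∀ x, A x * T = T * A x) :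
    avg A * T = T * avg A := by
  unfold avg
  rw [smul_mul_assoc, mul_smul_comm, Finset.sum_mul, Finset.mul_sum]
  simp only [h]

/-- A Heisenberg pair: `A x B y = Z (x y) B y A x` with `Z` central. -/
structure IsHeis (A B Z : ZMod p → (H →L[ℂ] H)) : Prop where
  hA : IsURep A
  hB : IsURep B
  hZ : IsURep Z
  zA : ∀ x y, Z x * A y = A y * Z x
  zB : ∀ x y, Z x * B y = B y * Z x
  comm : ∀ x y, A x * B y = Z (x * y) * (B y * A x)

theorem IsHeis.symm {A B Z : ZMod p → (H →L[ℂ] H)} (h : IsHeis A B Z) :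
    IsHeis B A (fun x => Z (-x)) where
  hA := h.hB
  hB := h.hA
  hZ := ⟨by simpa using h.hZ.zero, fun x y => by rw [neg_add]; exact h.hZ.add _ _,
    fun x v w => h.hZ.adj (-x) v w⟩
  zA := fun x y => h.zB _ _
  zB := fun x y => h.zA _ _
  comm := fun x y => by
    rw [h.comm y x, ← mul_assoc, ← h.hZ.add, mul_comm y x, neg_add_cancel, h.hZ.zero, one_mul]

theorem IsHeis.PBP {A B Z : ZMod p → (H →L[ℂ] H)} (h : IsHeis A B Z) :
    avg A * avg B * avg A = (p : ℂ)⁻¹ • (avg A - avg Z * avg A) + avg Z * (avg A * avg B) := by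
  have hEA : avg Z * avg A = avg A * avg Z :=
    avg_commute (fun x => (avg_commute (fun y => (h.zA x y).symm)).symm)
  -- the basic computation
  have h1 : ∀ y : ZMod p, y ≠ 0 → avg A * B y * avg A = avg Z * (avg A * B y) := by
    intro y hy
    have e1 : B y * avg A = (p : ℂ)⁻¹ • ∑ x, Z (-(x * y)) * (A x * B y) := by
      rw [avg, mul_smul_comm, Finset.mul_sum]
      congr 1
      apply Finset.sum_congr rfl
      intro x _
      rw [h.comm x y, ← mul_assoc (Z _), ← h.hZ.add, neg_add_cancel, h.hZ.zero, one_mul]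
    rw [mul_assoc, e1, mul_smul_comm, Finset.mul_sum]
    have e2 : ∀ x, avg A * (Z (-(x * y)) * (A x * B y)) = Z (-(x * y)) * (avg A * B y) := by
      intro x
      have : avg A * Z (-(x * y)) = Z (-(x * y)) * avg A :=
        avg_commute (fun z => (h.zA _ z).symm)
      rw [← mul_assoc, this, mul_assoc, ← mul_assoc (avg A) (A x), avg_mul_right h.hA]
    simp only [e2]
    rw [← Finset.sum_mul, ← smul_mul_assoc]
    congr 1
    unfold avg
    congr 1
    -- reindex
    have hbij : Function.Bijective (fun x : ZMod p => -(x * y)) := by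
      have hinj : Function.Injective (fun x : ZMod p => -(x * y)) := by
        intro a b hab
        have : a * y = b * y := neg_injective hab
        exact mul_right_cancel₀ hy this
      exact hinj.bijective_of_finite
    exact (Equiv.ofBijective _ hbij).sum_comp (fun x => Z x)
  have h2 : avg A * avg B * avg A
      = (p : ℂ)⁻¹ • (∑ y, avg A * B y * avg A) := by
    have h4 : avg B = (p : ℂ)⁻¹ • ∑ x, B x := rfl
    rw [h4, mul_smul_comm, smul_mul_assoc, Finset.mul_sum, Finset.sum_mul]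
  have h3 : ∑ y, avg A * B y * avg A
      = (avg A - avg Z * avg A) + ∑ y, avg Z * (avg A * B y) := by
    rw [← Finset.add_sum_erase _ _ (Finset.mem_univ (0 : ZMod p)),
      ← Finset.add_sum_erase (a := (0 : ZMod p)) _ (fun y => avg Z * (avg A * B y)) (Finset.mem_univ _)]
    rw [h.hB.zero, mul_one, avg_sq h.hA]
    rw [Finset.sum_congr rfl (g := fun y => avg Z * (avg A * B y))
      (fun y hy => h1 y (Finset.ne_of_mem_erase hy))]
    abel
  rw [h2, h3, smul_add]
  congr 1
  rw [← Finset.mul_sum, ← Finset.mul_sum, ← mul_smul_comm, ← mul_smul_comm]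
  rfl

/-- vector form, in the part where the centre has no invariants -/
theorem heis_ineq_aux1 (P R : H →L[ℂ] H) (ε : ℝ) (hε0 : 0 ≤ ε) (hε1 : ε ≤ 1)
    (hP : ∀ v w, inner ℂ (P v) w = (inner ℂ v (P w) : ℂ))
    (hR : ∀ v w, inner ℂ (R v) w = (inner ℂ v (R w) : ℂ))
    (hPP : ∀ v, P (P v) = P v) (hRR : ∀ v, R (R v) = R v)
    (v : H) (hPRP : P (R (P v)) = ((ε ^ 2 : ℝ) : ℂ) • P v) :
    0 ≤ 2 * (inner ℂ (v - P v) (v - R v) : ℂ).re + ε * (‖v - P v‖ ^ 2 + ‖v - R v‖ ^ 2) := by
  have sq : ∀ w : H, ‖w‖ ^ 2 = (inner ℂ w w : ℂ).re := by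
    intro w; rw [inner_self_eq_norm_sq_to_K]; norm_cast
  set n : ℝ := ‖v‖ ^ 2 with hn
  set a : ℝ := ‖P v‖ ^ 2 with ha
  set b : ℝ := ‖R v‖ ^ 2 with hb
  set c : ℝ := (inner ℂ (P v) (R v) : ℂ).re with hc
  have ha' : (inner ℂ (P v) v : ℂ).re = a := by
    rw [ha, sq, hP v (P v), hPP, ← hP]
  have hb' : (inner ℂ (R v) v : ℂ).re = b := by
    rw [hb, sq, hR v (R v), hRR, ← hR]
  have hre : ∀ x y : H, (inner ℂ x y : ℂ).re = (inner ℂ y x : ℂ).re := by
    intro x y; rw [← inner_conj_symm x y]; exact Complex.conj_re _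
  have ha'' : (inner ℂ v (P v) : ℂ).re = a := by rw [hre, ha']
  have hb'' : (inner ℂ v (R v) : ℂ).re = b := by rw [hre, hb']
  have hQA : ‖v - P v‖ ^ 2 = n - a := by
    rw [sq, inner_sub_left, inner_sub_right, inner_sub_right]
    simp only [Complex.sub_re]
    rw [ha', ha'', ← sq, ← sq]; ring
  have hQB : ‖v - R v‖ ^ 2 = n - b := by
    rw [sq, inner_sub_left, inner_sub_right, inner_sub_right]
    simp only [Complex.sub_re]
    rw [hb', hb'', ← sq, ← sq]; ring
  have hQAB : (inner ℂ (v - P v) (v - R v) : ℂ).re = n - a - b + c := by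
    rw [inner_sub_left, inner_sub_right, inner_sub_right]
    simp only [Complex.sub_re]
    rw [ha', hb'', ← sq]; ring
  -- norm of R P v
  have hRP : ‖R (P v)‖ ^ 2 = ε ^ 2 * a := by
    rw [sq, hR, hRR, hP, hPRP, inner_smul_right]
    rw [Complex.re_ofReal_mul, ha'']
  have hcabs : |c| ≤ ε * (‖P v‖ * ‖R v‖) := by
    have h1 : c = (inner ℂ (R (P v)) (R v) : ℂ).re := by
      rw [hc, hR (P v) (R v), hRR]
    rw [h1]
    calc |(inner ℂ (R (P v)) (R v) : ℂ).re| ≤ ‖(inner ℂ (R (P v)) (R v) : ℂ)‖ :=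
          Complex.abs_re_le_norm _
      _ ≤ ‖R (P v)‖ * ‖R v‖ := norm_inner_le_norm _ _
      _ = ε * ‖P v‖ * ‖R v‖ := by
          congr 1
          have : ‖R (P v)‖ ^ 2 = (ε * ‖P v‖) ^ 2 := by rw [hRP, ha]; ring
          exact (sq_eq_sq₀ (norm_nonneg _) (by positivity)).mp this
      _ = ε * (‖P v‖ * ‖R v‖) := by ring
  have hc2 : 2 * c ≤ ε * (a + b) := by
    have h2 : c ≤ ε * (‖P v‖ * ‖R v‖) := le_trans (le_abs_self _) hcabs
    have h3 : 2 * (‖P v‖ * ‖R v‖) ≤ a + b := by
      rw [ha, hb]; nlinarith [sq_nonneg (‖P v‖ - ‖R v‖)]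
    nlinarith
  have hab0 : 0 ≤ a + b := by positivity
  have hn0 : 0 ≤ n := by positivity
  have hab : a + b ≤ (1 + ε) * n := by
    have h1 : a + b = (inner ℂ (P v + R v) v : ℂ).re := by
      rw [inner_add_left, Complex.add_re, ha', hb']
    have h2 : ‖P v + R v‖ ^ 2 = a + b + 2 * c := by
      rw [sq, inner_add_left, inner_add_right, inner_add_right]
      simp only [Complex.add_re]
      rw [← sq, ← sq, hre (R v) (P v)]; ring
    have h3 : a + b ≤ ‖P v + R v‖ * ‖v‖ := by
      rw [h1]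
      exact le_trans (Complex.re_le_norm _) (norm_inner_le_norm _ _)
    have h4 : (a + b) ^ 2 ≤ ((1 + ε) * (a + b)) * n := by
      calc (a + b) ^ 2 ≤ (‖P v + R v‖ * ‖v‖) ^ 2 := by
            apply pow_le_pow_left₀ hab0 h3
        _ = ‖P v + R v‖ ^ 2 * n := by rw [hn]; ring
        _ ≤ ((1 + ε) * (a + b)) * n := by
            apply mul_le_mul_of_nonneg_right _ hn0
            rw [h2]; nlinarith
    rcases eq_or_lt_of_le hab0 with h5 | h5
    · rw [← h5]; positivity
    · have : (a + b) * (a + b) ≤ (a + b) * ((1 + ε) * n) := by nlinarith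
      exact le_of_mul_le_mul_left this h5
  have hpos : 0 ≤ (1 + ε) ^ 2 * n - 2 * (1 + ε) * (a + b) + (a + b) + 2 * c := by
    have h1 : ‖((1 + ε : ℝ) : ℂ) • v - (P v + R v)‖ ^ 2
        = (1 + ε) ^ 2 * n - 2 * (1 + ε) * (a + b) + (a + b) + 2 * c := by
      rw [sq, inner_sub_left, inner_sub_right, inner_sub_right, inner_smul_left, inner_smul_left,
        inner_smul_right, inner_smul_right, inner_add_left, inner_add_right, inner_add_left,
        inner_add_right, inner_add_right]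
      simp only [Complex.conj_ofReal]
      simp only [Complex.sub_re, Complex.add_re, Complex.re_ofReal_mul]
      rw [← sq, ← sq, ← sq, ha', hb', ha'', hb'', hre (R v) (P v)]
      ring
    rw [← h1]; positivity
  rw [hQA, hQB, hQAB]
  nlinarith [mul_nonneg (sub_nonneg.mpr hε1) (sub_nonneg.mpr hab)]

end Pool.Agent.H56R3
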