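import Pool.Agent.H56R3.Heis

set_option autoImplicit false

open scoped InnerProductSpace ComplexOrder
open ContinuousLinearMap

namespace Pool.Agent.H56R3

variable {H : Type*} [NormedAddCommGroup H] [InnerProductSpace ℂ H]
variable {p : ℕ} [Fact p.Prime]

theorem heis_ineq {A B Z : ZMod p → (H →L[ℂ] H)} (h : IsHeis A B Z) (ε : ℝ) (hε0 : 0 ≤ ε)
    (hε1 : ε ≤ 1) (hε : ε ^ 2 = (p : ℝ)⁻¹) (v : H) :
    0 ≤ 2 * (inner ℂ (v - avg A v) (v - avg B v) : ℂ).re
      + ε * (‖v - avg A v‖ ^ 2 + ‖v - avg B v‖ ^ 2) := by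
  set P := avg A with hPdef
  set R := avg B with hRdef
  set E := avg Z with hEdef
  have hP : ∀ v w, inner ℂ (P v) w = (inner ℂ v (P w) : ℂ) := avg_sym h.hA
  have hR : ∀ v w, inner ℂ (R v) w = (inner ℂ v (R w) : ℂ) := avg_sym h.hB
  have hE : ∀ v w, inner ℂ (E v) w = (inner ℂ v (E w) : ℂ) := avg_sym h.hZ
  have hPP : ∀ v, P (P v) = P v := avg_sq_apply h.hA
  have hRR : ∀ v, R (R v) = R v := avg_sq_apply h.hB
  have hEE : ∀ v, E (E v) = E v := avg_sq_apply h.hZ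
  have hEP : ∀ v, E (P v) = P (E v) := by
    intro v
    have h1 : E * P = P * E := avg_commute (fun x => (avg_commute (fun y => (h.zA x y).symm)).symm)
    exact congrArg (fun T : H →L[ℂ] H => T v) h1
  have hER : ∀ v, E (R v) = R (E v) := by
    intro v
    have h1 : E * R = R * E := avg_commute (fun x => (avg_commute (fun y => (h.zB x y).symm)).symm)
    exact congrArg (fun T : H →L[ℂ] H => T v) h1
  have hmain : ∀ v, P (R (P v)) = (p : ℂ)⁻¹ • (P v - E (P v)) + E (P (R v)) := by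
    intro v
    exact congrArg (fun T : H →L[ℂ] H => T v) h.PBP
  -- the two components
  set v0 := E v with hv0
  set v1 := v - E v with hv1
  have hv : v = v0 + v1 := by simp [hv0, hv1]
  have hEv0 : E v0 = v0 := hEE v
  have hEv1 : E v1 = 0 := by rw [hv1, map_sub, hEE, sub_self]
  have sq : ∀ w : H, ‖w‖ ^ 2 = (inner ℂ w w : ℂ).re := by
    intro w; rw [inner_self_eq_norm_sq_to_K]; norm_cast
  -- orthogonality
  have horth : ∀ x y : H, E x = x → E y = 0 → (inner ℂ x y : ℂ) = 0 := by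
    intro x y hx hy
    rw [← hx, hE, hy, inner_zero_right]
  have hA0 : E (v0 - P v0) = v0 - P v0 := by rw [map_sub, hEP, hEv0]
  have hB0 : E (v0 - R v0) = v0 - R v0 := by rw [map_sub, hER, hEv0]
  have hA1 : E (v1 - P v1) = 0 := by rw [map_sub, hEP, hEv1, map_zero, sub_zero]
  have hB1 : E (v1 - R v1) = 0 := by rw [map_sub, hER, hEv1, map_zero, sub_zero]
  have hre : ∀ x y : H, (inner ℂ x y : ℂ).re = (inner ℂ y x : ℂ).re := by
    intro x y; rw [← inner_conj_symm x y]; exact Complex.conj_re _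
  have hsplitA : v - P v = (v0 - P v0) + (v1 - P v1) := by
    conv_lhs => rw [hv]
    rw [map_add]; abel
  have hsplitB : v - R v = (v0 - R v0) + (v1 - R v1) := by
    conv_lhs => rw [hv]
    rw [map_add]; abel
  have hinner : (inner ℂ (v - P v) (v - R v) : ℂ).re
      = (inner ℂ (v0 - P v0) (v0 - R v0) : ℂ).re + (inner ℂ (v1 - P v1) (v1 - R v1) : ℂ).re := by
    rw [hsplitA, hsplitB, inner_add_left, inner_add_right, inner_add_right]
    rw [horth _ _ hA0 hB1]
    simp only [Complex.add_re, add_zero]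
    rw [hre (v1 - P v1) (v0 - R v0), horth _ _ hB0 hA1, Complex.zero_re]
    ring
  have hnA : ‖v - P v‖ ^ 2 = ‖v0 - P v0‖ ^ 2 + ‖v1 - P v1‖ ^ 2 := by
    rw [sq, sq (v0 - P v0), sq (v1 - P v1), hsplitA, inner_add_left, inner_add_right,
      inner_add_right, horth _ _ hA0 hA1]
    simp only [Complex.add_re, add_zero]
    rw [hre (v1 - P v1) (v0 - P v0), horth _ _ hA0 hA1]
    simp
  have hnB : ‖v - R v‖ ^ 2 = ‖v0 - R v0‖ ^ 2 + ‖v1 - R v1‖ ^ 2 := by
    rw [sq, sq (v0 - R v0), sq (v1 - R v1), hsplitB, inner_add_left, inner_add_right,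
      inner_add_right, horth _ _ hB0 hB1]
    simp only [Complex.add_re, add_zero]
    rw [hre (v1 - R v1) (v0 - R v0), horth _ _ hB0 hB1]
    simp
  -- the part with trivial centre
  have hcomm : P (R v0) = R (P v0) := by
    have h1 : ∀ x, E x = x → P (R (P x)) = P (R x) := by
      intro x hx
      rw [hmain x, hEP, hx, sub_self, smul_zero, zero_add, hEP, hER, hx]
    have h2 : ∀ x y, E x = x → E y = y → inner ℂ (P (R x)) y = (inner ℂ (R (P x)) y : ℂ) := by
      intro x y hx hy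
      rw [← h1 x hx, hP, hR, hP, h1 y hy, ← hP, ← hR]
    have h3 : E (P (R v0) - R (P v0)) = P (R v0) - R (P v0) := by
      rw [map_sub, hEP, hER, hER, hEP, hEv0]
    have h4 : (inner ℂ (P (R v0) - R (P v0)) (P (R v0) - R (P v0)) : ℂ) = 0 := by
      rw [inner_sub_left, h2 v0 _ hEv0 h3, sub_self]
    exact sub_eq_zero.mp (inner_self_eq_zero.mp h4)
  have h0 : 0 ≤ (inner ℂ (v0 - P v0) (v0 - R v0) : ℂ).re := by
    have e : (inner ℂ (v0 - P v0) (v0 - R v0) : ℂ)
        = inner ℂ ((v0 - P v0) - R (v0 - P v0)) ((v0 - P v0) - R (v0 - P v0)) := by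
      have hRPR : R (P (R v0)) = P (R v0) := by rw [hcomm, hRR]
      simp only [map_sub, ← hcomm, inner_sub_left, inner_sub_right]
      simp only [hP, hR, hPP, hRR, ← hcomm, hRPR]
      ring
    rw [e, ← sq]; positivity
  -- the other part
  have h1 := heis_ineq_aux1 P R ε hε0 hε1 hP hR hPP hRR v1 (by
    rw [hmain v1, hEP, hEv1, map_zero, sub_zero, hEP, hER, hEv1, map_zero, map_zero, add_zero, hε]
    norm_num)
  rw [hinner, hnA, hnB]
  have h2 : 0 ≤ ε * (‖v0 - P v0‖ ^ 2 + ‖v0 - R v0‖ ^ 2) := by positivity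
  nlinarith

/-- Three pairwise Heisenberg families: the Laplacian `Δ = Σ (1 - P_i)` satisfies
`‖Δ v‖² ≥ (1 - 2 ε) ⟨Δ v, v⟩`. -/
theorem triple_ineq {A B C ZAB ZBC ZCA : ZMod p → (H →L[ℂ] H)}
    (hAB : IsHeis A B ZAB) (hBC : IsHeis B C ZBC) (hCA : IsHeis C A ZCA)
    (ε : ℝ) (hε0 : 0 ≤ ε) (hε1 : ε ≤ 1) (hε : ε ^ 2 = (p : ℝ)⁻¹) (v : H) :
    (1 - 2 * ε) * (‖v - avg A v‖ ^ 2 + ‖v - avg B v‖ ^ 2 + ‖v - avg C v‖ ^ 2)
      ≤ ‖(v - avg A v) + (v - avg B v) + (v - avg C v)‖ ^ 2 := by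
  have sq : ∀ w : H, ‖w‖ ^ 2 = (inner ℂ w w : ℂ).re := by
    intro w; rw [inner_self_eq_norm_sq_to_K]; norm_cast
  have hre : ∀ x y : H, (inner ℂ x y : ℂ).re = (inner ℂ y x : ℂ).re := by
    intro x y; rw [← inner_conj_symm x y]; exact Complex.conj_re _
  have h1 := heis_ineq hAB ε hε0 hε1 hε v
  have h2 := heis_ineq hBC ε hε0 hε1 hε v
  have h3 := heis_ineq hCA ε hε0 hε1 hε v
  set x := v - avg A v
  set y := v - avg B v
  set z := v - avg C v
  have e : ‖x + y + z‖ ^ 2 = ‖x‖ ^ 2 + ‖y‖ ^ 2 + ‖z‖ ^ 2 + 2 * (inner ℂ x y : ℂ).re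
      + 2 * (inner ℂ y z : ℂ).re + 2 * (inner ℂ z x : ℂ).re := by
    rw [sq, sq x, sq y, sq z]
    simp only [inner_add_left, inner_add_right, Complex.add_re]
    rw [hre y x, hre z y, hre x z]
    ring
  rw [e]
  nlinarith

end Pool.Agent.H56R3
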