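import Pool.Agent.H56R3.Final

set_option autoImplicit false

open scoped InnerProductSpace ComplexOrder
open ContinuousLinearMap

namespace Pool.Agent.H56R3

instance fact5 : Fact (Nat.Prime 5) := ⟨by norm_num⟩

theorem main_of_data (D : Data 5) :
  ∃ G : SimpleGraph ℕ,
    (∃ D : ℕ, ∀ x : ℕ, (G.neighborSet x).Finite ∧ (G.neighborSet x).ncard ≤ D) ∧
    (∀ x : ℕ, {y : ℕ | G.Reachable x y}.Finite) ∧
    ∃ L : lp (fun _ : ℕ => ℂ) 2 →L[ℂ] lp (fun _ : ℕ => ℂ) 2,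
      (∀ x : ℕ, inner ℂ (lp.single 2 x (1 : ℂ) : lp (fun _ : ℕ => ℂ) 2)
          (L (lp.single 2 x (1 : ℂ) : lp (fun _ : ℕ => ℂ) 2)) = ((G.neighborSet x).ncard : ℂ)) ∧
      (∀ x y : ℕ, G.Adj x y → inner ℂ (lp.single 2 y (1 : ℂ) : lp (fun _ : ℕ => ℂ) 2)
          (L (lp.single 2 x (1 : ℂ) : lp (fun _ : ℕ => ℂ) 2)) = -1) ∧
      (∀ x y : ℕ, x ≠ y → ¬ G.Adj x y → inner ℂ (lp.single 2 y (1 : ℂ) : lp (fun _ : ℕ => ℂ) 2)
          (L (lp.single 2 x (1 : ℂ) : lp (fun _ : ℕ => ℂ) 2)) = 0) ∧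
      (∀ P Gh : Set (lp (fun _ : ℕ => ℂ) 2 →L[ℂ] lp (fun _ : ℕ => ℂ) 2),
        (∀ T, T ∈ P ↔ ∃ R : ℕ, ∀ x y : ℕ,
            inner ℂ (lp.single 2 y (1 : ℂ) : lp (fun _ : ℕ => ℂ) 2)
              (T (lp.single 2 x (1 : ℂ) : lp (fun _ : ℕ => ℂ) 2)) ≠ 0 →
            G.edist x y ≤ (R : ℕ∞)) →
        (∀ T, T ∈ Gh ↔ ∀ ε : ℝ, 0 < ε → ∃ F : Finset ℕ, ∀ x y : ℕ, x ∉ F →
            ‖inner ℂ (lp.single 2 y (1 : ℂ) : lp (fun _ : ℕ => ℂ) 2)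
              (T (lp.single 2 x (1 : ℂ) : lp (fun _ : ℕ => ℂ) 2))‖ < ε) →
        ∃ c : ℝ, 0 < c ∧
          ∀ (H : Type) [NormedAddCommGroup H] [InnerProductSpace ℂ H] [CompleteSpace H]
            (π : (lp (fun _ : ℕ => ℂ) 2 →L[ℂ] lp (fun _ : ℕ => ℂ) 2) → (H →L[ℂ] H)),
            (∀ S ∈ P, ∀ T ∈ P, π (S + T) = π S + π T ∧ π (S * T) = π S * π T) →
            (∀ a : ℂ, ∀ T ∈ P, π (a • T) = a • π T) →
            (∀ T ∈ P, π (star T) = star (π T)) →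
            (∀ T ∈ P, T ∈ Gh → π T = 0) →
            spectrum ℂ (π L) ⊆ {z : ℂ | z = 0 ∨ (z.im = 0 ∧ c ≤ z.re)}) ∧
      ¬ ∃ c : ℝ, 0 < c ∧ spectrum ℂ L ⊆ {z : ℂ | z = 0 ∨ (z.im = 0 ∧ c ≤ z.re)} := by
  classical
  refine ⟨D.G, ⟨Fintype.card (ZMod 5 ⊕ ZMod 5 ⊕ ZMod 5 ⊕ Unit), fun x => ?_⟩, fun x => ?_,
    lap D.s, fun x => ?_, fun x y h => ?_, fun x y hxy h => ?_, ?_, D.no_gap⟩
  · obtain ⟨h1, h2⟩ := neighbor_ncard D.s (famInv 5) D.hinv D.free x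
    refine ⟨h1, ?_⟩
    change ((permGraph D.s (famInv 5) D.hinv).neighborSet x).ncard ≤ _
    rw [h2]
    exact Finset.card_le_univ _
  · apply (D.idx_fin (D.idx x)).subset
    intro y hy
    exact reach_idx D.s (famInv 5) D.hinv D.idx D.idx_pres x y hy
  · exact lap_diag D.s (famInv 5) D.hinv D.free x
  · exact lap_adj D.s (famInv 5) D.hinv D.free x y h
  · exact lap_nonadj D.s (famInv 5) D.hinv x y hxy h
  · intro P Gh hP hGh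
    have hε1 : 2 * (√5)⁻¹ < (1 : ℝ) := by
      have h5 : (2 : ℝ) < √5 := by
        rw [Real.lt_sqrt (by norm_num)]; norm_num
      rw [← div_eq_mul_inv, div_lt_one (by linarith)]
      exact h5
    have hε2 : ((√5)⁻¹ : ℝ) ^ 2 = ((5 : ℕ) : ℝ)⁻¹ := by
      rw [inv_pow, Real.sq_sqrt (by norm_num)]; norm_num
    refine ⟨((5 : ℕ) : ℝ) * (1 - 2 * (√5)⁻¹), by
      apply mul_pos (by norm_num); linarith, ?_⟩
    intro H _ _ _ π h1 h2 h3 h4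
    have hP' : ∀ T, T ∈ P ↔ InP D.G T := hP
    have hGh' : ∀ T, T ∈ Gh ↔ InGh T := hGh
    have hrep : IsRep D.G π :=
      { add := fun S T hS hT => (h1 S ((hP' S).mpr hS) T ((hP' T).mpr hT)).1
        mul := fun S T hS hT => (h1 S ((hP' S).mpr hS) T ((hP' T).mpr hT)).2
        smul := fun c T hT => h2 c T ((hP' T).mpr hT)
        star := fun T hT => h3 T ((hP' T).mpr hT)
        ghost := fun T hT hG => h4 T ((hP' T).mpr hT) ((hGh' T).mpr hG) }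
    have := rep_spectrum hrep D.hab D.hbc D.hca D.InP_a D.InP_b D.InP_c D.τ D.hτ D.InP_τ D.disj
      (√5)⁻¹ (by positivity) hε1 hε2
    rw [← D.lap_eq] at this
    exact this

end Pool.Agent.H56R3
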