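import Mathlib

set_option autoImplicit false

open scoped InnerProductSpace ComplexOrder
open ContinuousLinearMap

namespace Pool.Agent.H56R3

variable {H : Type*} [NormedAddCommGroup H] [InnerProductSpace ℂ H] [CompleteSpace H]

/-- the set which the spectrum has to avoid -/
def gapSet (c : ℝ) : Set ℂ := {z : ℂ | z = 0 ∨ (z.im = 0 ∧ c ≤ z.re)}

/-- If `T` is self-adjoint, nonnegative and `T ^ 2 ≥ c T`, then the spectrum lies in `{0} ∪ [c, ∞)`. -/
theorem spectrum_subset_of_sq (T : H →L[ℂ] H) (c : ℝ)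
    (h0 : 0 ≤ T) (h1 : 0 ≤ T * T - (c : ℂ) • T) :
    spectrum ℂ T ⊆ gapSet c := by
  intro z hz
  have hz0 : 0 ≤ z := spectrum_nonneg_of_nonneg h0 hz
  have hz1 : z * z - (c : ℂ) * z ∈ spectrum ℂ (T * T - (c : ℂ) • T) := by
    have := spectrum.subset_polynomial_aeval (𝕜 := ℂ) T
      (Polynomial.X * Polynomial.X - Polynomial.C (c : ℂ) * Polynomial.X)
    have h2 := this (Set.mem_image_of_mem _ hz)
    simpa [Algebra.smul_def] using h2
  have hz2 : 0 ≤ z * z - (c : ℂ) * z := spectrum_nonneg_of_nonneg h1 hz1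
  rw [Complex.le_def] at hz0 hz2
  obtain ⟨hre, him⟩ := hz0
  simp only [Complex.zero_re, Complex.zero_im] at hre him
  obtain ⟨hre2, -⟩ := hz2
  have him' : z.im = 0 := him.symm
  simp only [Complex.zero_re, Complex.sub_re, Complex.mul_re, him', Complex.ofReal_re,
    Complex.ofReal_im, mul_zero, sub_zero] at hre2
  rcases eq_or_lt_of_le hre with h | h
  · left
    exact Complex.ext h.symm him'
  · right
    refine ⟨him', ?_⟩
    nlinarith

/-- Gap on the orthogonal complement of the kernel. -/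
theorem gap_of_spectrum (T : H →L[ℂ] H) (hT : IsSelfAdjoint T) (c : ℝ)
    (hs : spectrum ℂ T ⊆ gapSet c) (v : H)
    (hv : ∀ w : H, T w = 0 → inner ℂ w v = 0) :
    c * ‖v‖ ^ 2 ≤ (inner ℂ (T v) v : ℂ).re := by
  -- T^3 ≥ c T^2
  have hsR : ∀ x ∈ spectrum ℝ T, 0 ≤ x ^ 3 - c * x ^ 2 := by
    intro x hx
    have hx' : (x : ℂ) ∈ spectrum ℂ T := by
      have := hx
      rw [← spectrum.algebraMap_mem_iff ℂ] at this
      simpa using this
    rcases hs hx' with h | ⟨-, h⟩
    · have : x = 0 := by exact_mod_cast h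
      simp [this]
    · simp only [Complex.ofReal_re] at h
      nlinarith [sq_nonneg x]
  have hcfc : 0 ≤ cfc (fun x : ℝ => x ^ 3 - c * x ^ 2) T := cfc_nonneg hsR
  have heq : cfc (fun x : ℝ => x ^ 3 - c * x ^ 2) T = T ^ 3 - (c : ℝ) • T ^ 2 := by
    rw [cfc_sub (fun x : ℝ => x ^ 3) (fun x : ℝ => c * x ^ 2) T, cfc_const_mul c (fun x : ℝ => x ^ 2) T,
      cfc_pow (fun x : ℝ => x) 3 T, cfc_pow (fun x : ℝ => x) 2 T, cfc_id' ℝ T]
  rw [heq] at hcfc
  have hadj : adjoint T = T := by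
    have := hT.star_eq
    rwa [ContinuousLinearMap.star_eq_adjoint] at this
  have hrange : ∀ u : H, c * ‖T u‖ ^ 2 ≤ (inner ℂ (T (T u)) (T u) : ℂ).re := by
    intro u
    rw [ContinuousLinearMap.nonneg_iff_isPositive] at hcfc
    have h := hcfc.re_inner_nonneg_left u
    have e1 : inner ℂ ((T ^ 3 - (c : ℝ) • T ^ 2) u) u
        = inner ℂ (T (T u)) (T u) - (c : ℂ) * inner ℂ (T u) (T u) := by
      have a1 : (T ^ 3 - (c : ℝ) • T ^ 2) u = T (T (T u)) - (c : ℂ) • T (T u) := by
        simp [pow_succ]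
      rw [a1, inner_sub_left, inner_smul_left]
      have a2 : ∀ x y : H, inner ℂ (T x) y = (inner ℂ x (T y) : ℂ) := by
        intro x y
        rw [← ContinuousLinearMap.adjoint_inner_right, hadj]
      rw [a2 (T (T u)) u, a2 (T u) u]
      simp
    rw [e1] at h
    have e2 : (inner ℂ (T u) (T u) : ℂ) = ((‖T u‖ ^ 2 : ℝ) : ℂ) := by
      rw [inner_self_eq_norm_sq_to_K]; norm_cast
    rw [e2] at h
    simp only [map_sub, RCLike.re_to_complex, Complex.mul_re, Complex.ofReal_re,
      Complex.ofReal_im, mul_zero, sub_zero] at h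
    linarith
  have hclosed : IsClosed {x : H | c * ‖x‖ ^ 2 ≤ (inner ℂ (T x) x : ℂ).re} := by
    apply isClosed_le
    · fun_prop
    · exact Complex.continuous_re.comp (by fun_prop)
  have hmem : v ∈ (↑(adjoint T) : H →ₗ[ℂ] H).range.topologicalClosure := by
    rw [← ContinuousLinearMap.orthogonal_ker]
    rw [Submodule.mem_orthogonal]
    intro w hw
    exact hv w (by simpa using hw)
  rw [hadj] at hmem
  have hsub : ((↑T : H →ₗ[ℂ] H).range.topologicalClosure : Set H) ⊆
      {x : H | c * ‖x‖ ^ 2 ≤ (inner ℂ (T x) x : ℂ).re} := by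
    rw [Submodule.topologicalClosure_coe]
    apply closure_minimal _ hclosed
    rintro _ ⟨u, rfl⟩
    exact hrange u
  exact hsub hmem

/-- Conversely: if `T` is symmetric, kills the closed subspace `K` and has a lower bound `c`
on the complement of `K`, then the spectrum lies in `{0} ∪ [c, ∞)`. -/
theorem spectrum_of_gap (T : H →L[ℂ] H) (hT : IsSelfAdjoint T) (c : ℝ) (hc : 0 < c)
    (K : Submodule ℂ H) (hK : IsClosed (K : Set H)) (hTK : ∀ v ∈ K, T v = 0)
    (hgap : ∀ v ∈ Kᗮ, c * ‖v‖ ^ 2 ≤ (inner ℂ (T v) v : ℂ).re) :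
    spectrum ℂ T ⊆ gapSet c := by
  have hadj : adjoint T = T := by
    have := hT.star_eq
    rwa [ContinuousLinearMap.star_eq_adjoint] at this
  have hsym : ∀ x y : H, inner ℂ (T x) y = (inner ℂ x (T y) : ℂ) := by
    intro x y
    rw [← ContinuousLinearMap.adjoint_inner_right, hadj]
  haveI : CompleteSpace K := hK.completeSpace_coe
  -- decomposition
  have hdec : ∀ v : H, ∃ k ∈ K, ∃ w ∈ Kᗮ, v = k + w := by
    intro v
    refine ⟨K.starProjection v, Submodule.starProjection_apply_mem K v, v - K.starProjection v,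
      Submodule.sub_starProjection_mem_orthogonal v, by abel⟩
  have key : ∀ v : H, 0 ≤ (inner ℂ (T v) v : ℂ).re ∧
      c * (inner ℂ (T v) v : ℂ).re ≤ ‖T v‖ ^ 2 := by
    intro v
    obtain ⟨k, hk, w, hw, rfl⟩ := hdec v
    have h1 : T (k + w) = T w := by rw [map_add, hTK k hk, zero_add]
    have h2 : (inner ℂ (T w) k : ℂ) = 0 := by rw [hsym, hTK k hk, inner_zero_right]
    rw [h1, inner_add_right, h2, zero_add]
    have h3 := hgap w hw
    have h4 : 0 ≤ ‖w‖ ^ 2 := sq_nonneg _
    have h5 : 0 ≤ (inner ℂ (T w) w : ℂ).re := le_trans (by positivity) h3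
    refine ⟨h5, ?_⟩
    have h6 : (inner ℂ (T w) w : ℂ).re ≤ ‖T w‖ * ‖w‖ :=
      le_trans (Complex.re_le_norm _) (norm_inner_le_norm _ _)
    set a := (inner ℂ (T w) w : ℂ).re with ha
    rcases eq_or_lt_of_le (norm_nonneg w) with hw0 | hw0
    · have : a ≤ 0 := by rw [← hw0] at h6; simpa using h6
      have ha0 : a = 0 := le_antisymm this h5
      rw [ha0]; simp
    · have h7 : a ^ 2 ≤ ‖T w‖ ^ 2 * ‖w‖ ^ 2 := by
        nlinarith [norm_nonneg (T w)]
      have h8 : c * a * ‖w‖ ^ 2 ≤ ‖T w‖ ^ 2 * ‖w‖ ^ 2 := by nlinarith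
      have h9 : 0 < ‖w‖ ^ 2 := by positivity
      exact le_of_mul_le_mul_right h8 h9
  apply spectrum_subset_of_sq
  · rw [ContinuousLinearMap.nonneg_iff_isPositive, ContinuousLinearMap.isPositive_def']
    refine ⟨hT, fun v => ?_⟩
    rw [ContinuousLinearMap.reApplyInnerSelf_apply]
    exact (key v).1
  · rw [ContinuousLinearMap.nonneg_iff_isPositive, ContinuousLinearMap.isPositive_def']
    refine ⟨?_, fun v => ?_⟩
    · apply IsSelfAdjoint.sub
      · exact (hT.commute_iff hT).mp (Commute.refl T) 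
      · apply IsSelfAdjoint.smul _ hT
        rw [isSelfAdjoint_iff]; simp
    · rw [ContinuousLinearMap.reApplyInnerSelf_apply]
      have e1 : (inner ℂ ((T * T - (c : ℂ) • T) v) v : ℂ)
          = inner ℂ (T v) (T v) - (c : ℂ) * inner ℂ (T v) v := by
        have a1 : (T * T - (c : ℂ) • T) v = T (T v) - (c : ℂ) • T v := by simp
        rw [a1, inner_sub_left, inner_smul_left, hsym (T v) v]
        simp
      rw [e1]
      have e2 : (inner ℂ (T v) (T v) : ℂ) = ((‖T v‖ ^ 2 : ℝ) : ℂ) := by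
        rw [inner_self_eq_norm_sq_to_K]; norm_cast
      rw [e2]
      simp only [map_sub, RCLike.re_to_complex, Complex.mul_re, Complex.ofReal_re,
        Complex.ofReal_im, zero_mul, sub_zero]
      linarith [(key v).2]

end Pool.Agent.H56R3
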