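import Pool.Agent.H56R3.Heis2
import Pool.Agent.H56R3.Spec
import Pool.Agent.H56R3.Ell2

set_option autoImplicit false

open scoped InnerProductSpace ComplexOrder
open ContinuousLinearMap

namespace Pool.Agent.H56R3

/-- Heisenberg relations in a group -/
structure HeisG {p : ℕ} {Γ : Type*} [Group Γ] (a b z : ZMod p → Γ) : Prop where
  a_add : ∀ x y, a (x + y) = a x * a y
  b_add : ∀ x y, b (x + y) = b x * b y
  z_add : ∀ x y, z (x + y) = z x * z y
  za : ∀ x y, z x * a y = a y * z x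
  zb : ∀ x y, z x * b y = b y * z x
  comm : ∀ x y, a x * b y = z (x * y) * (b y * a x)

theorem add_zero_one {p : ℕ} {Γ : Type*} [Group Γ] {a : ZMod p → Γ}
    (h : ∀ x y, a (x + y) = a x * a y) : a 0 = 1 := by
  have := h 0 0
  rw [add_zero] at this
  exact mul_eq_left.mp this.symm

theorem add_neg_inv {p : ℕ} {Γ : Type*} [Group Γ] {a : ZMod p → Γ}
    (h : ∀ x y, a (x + y) = a x * a y) (x : ZMod p) : a (-x) = (a x)⁻¹ := by
  rw [eq_inv_iff_mul_eq_one, ← h, neg_add_cancel, add_zero_one h]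

variable {H : Type*} [NormedAddCommGroup H] [InnerProductSpace ℂ H] [CompleteSpace H]

/-- a `*`-representation of the finite propagation operators which kills ghosts -/
structure IsRep (G : SimpleGraph ℕ) (π : B2 → (H →L[ℂ] H)) : Prop where
  add : ∀ S T, InP G S → InP G T → π (S + T) = π S + π T
  mul : ∀ S T, InP G S → InP G T → π (S * T) = π S * π T
  smul : ∀ (c : ℂ) T, InP G T → π (c • T) = c • π T
  star : ∀ T, InP G T → π (star T) = star (π T)
  ghost : ∀ T, InP G T → InGh T → π T = 0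

variable {G : SimpleGraph ℕ} {π : B2 → (H →L[ℂ] H)}

theorem IsRep.sub (h : IsRep G π) {S T : B2} (hS : InP G S) (hT : InP G T) :
    π (S - T) = π S - π T := by
  have h1 : S - T = S + (-1 : ℂ) • T := by simp [sub_eq_add_neg]
  rw [h1, h.add _ _ hS (hT.smul _), h.smul _ _ hT]
  simp [sub_eq_add_neg]

theorem IsRep.zero (h : IsRep G π) : π 0 = 0 := by
  have h1 := h.smul 0 0 (InP.zero G)
  simpa using h1

theorem IsRep.sum (h : IsRep G π) {ι : Type*} (s : Finset ι) (f : ι → B2)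
    (hf : ∀ i ∈ s, InP G (f i)) : π (∑ i ∈ s, f i) = ∑ i ∈ s, π (f i) := by
  classical
  induction s using Finset.induction_on with
  | empty => simpa using h.zero
  | insert a s ha ih =>
    rw [Finset.sum_insert ha, Finset.sum_insert ha,
      h.add _ _ (hf a (Finset.mem_insert_self _ _))
        (InP.sum _ _ (fun i hi => hf i (Finset.mem_insert_of_mem hi))),
      ih (fun i hi => hf i (Finset.mem_insert_of_mem hi))]

/-- the associated unitary representation of the group of bounded displacement permutations -/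
noncomputable def rho (π : B2 → (H →L[ℂ] H)) (σ : Equiv.Perm ℕ) : H →L[ℂ] H :=
  π (Uop σ) + (1 - π 1)

theorem rho_one (π : B2 → (H →L[ℂ] H)) : rho π 1 = 1 := by
  unfold rho; rw [Uop_one]; abel

theorem IsRep.e_left (h : IsRep G π) {T : B2} (hT : InP G T) : π 1 * π T = π T := by
  rw [← h.mul _ _ (InP.one G) hT, one_mul]

theorem IsRep.e_right (h : IsRep G π) {T : B2} (hT : InP G T) : π T * π 1 = π T := by
  rw [← h.mul _ _ hT (InP.one G), mul_one]

theorem rho_mul (h : IsRep G π) {σ τ : Equiv.Perm ℕ} (hσ : InP G (Uop σ)) (hτ : InP G (Uop τ)) :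
    rho π (σ * τ) = rho π σ * rho π τ := by
  unfold rho
  rw [Uop_mul, h.mul _ _ hσ hτ]
  have h1 := h.e_left hσ
  have h2 := h.e_left hτ
  have h3 := h.e_right hσ
  have h4 := h.e_left (InP.one G)
  have h5 := h.e_right hτ
  simp only [add_mul, mul_add, sub_mul, mul_sub, one_mul, mul_one, h1, h2, h3, h4]
  abel

theorem InP_Uop_mul {σ τ : Equiv.Perm ℕ} (hσ : InP G (Uop σ)) (hτ : InP G (Uop τ)) :
    InP G (Uop (σ * τ)) := by
  rw [Uop_mul]; exact hσ.mul hτ

theorem InP_Uop_inv {σ : Equiv.Perm ℕ} (hσ : InP G (Uop σ)) : InP G (Uop σ⁻¹) := by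
  rw [← star_Uop]; exact hσ.adj

theorem InP_Uop_closure {S : Set (Equiv.Perm ℕ)} (hS : ∀ σ ∈ S, InP G (Uop σ))
    {σ : Equiv.Perm ℕ} (hσ : σ ∈ Subgroup.closure S) : InP G (Uop σ) := by
  induction hσ using Subgroup.closure_induction with
  | mem x hx => exact hS x hx
  | one => rw [Uop_one]; exact InP.one G
  | mul x y _ _ hx hy => exact InP_Uop_mul hx hy
  | inv x _ hx => exact InP_Uop_inv hx

theorem adj_eq (T : H →L[ℂ] H) (v w : H) : inner ℂ (T v) w = (inner ℂ v ((star T) w) : ℂ) := by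
  rw [ContinuousLinearMap.star_eq_adjoint, ContinuousLinearMap.adjoint_inner_right]

theorem star_rho (h : IsRep G π) {σ : Equiv.Perm ℕ} (hσ : InP G (Uop σ)) :
    star (rho π σ) = rho π σ⁻¹ := by
  unfold rho
  rw [star_add, star_sub, star_one, ← h.star _ hσ, ← h.star _ (InP.one G), star_one, star_Uop]

theorem rho_adj (h : IsRep G π) {σ : Equiv.Perm ℕ} (hσ : InP G (Uop σ)) (v w : H) :
    inner ℂ (rho π σ v) w = (inner ℂ v (rho π σ⁻¹ w) : ℂ) := by
  rw [adj_eq, star_rho h hσ]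

section heis

variable {p : ℕ} [Fact p.Prime]

theorem isURep_rho (h : IsRep G π) {a : ZMod p → Equiv.Perm ℕ}
    (ha : ∀ x y, a (x + y) = a x * a y) (hP : ∀ x, InP G (Uop (a x))) :
    IsURep (fun x => rho π (a x)) where
  zero := by
    simp only [add_zero_one ha, rho_one]
  add := fun x y => by
    simp only [ha, rho_mul h (hP x) (hP y)]
  adj := fun x v w => by
    simp only [add_neg_inv ha]
    exact rho_adj h (hP x) v w

theorem isHeis_rho (h : IsRep G π) {a b z : ZMod p → Equiv.Perm ℕ} (hg : HeisG a b z)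
    (hPa : ∀ x, InP G (Uop (a x))) (hPb : ∀ x, InP G (Uop (b x))) :
    IsHeis (fun x => rho π (a x)) (fun x => rho π (b x)) (fun x => rho π (z x)) := by
  have hPz : ∀ x, InP G (Uop (z x)) := by
    intro x
    have h1 := hg.comm x 1
    rw [mul_one] at h1
    have h2 : z x = a x * b 1 * (b 1 * a x)⁻¹ := by rw [h1]; group
    rw [h2]
    exact InP_Uop_mul (InP_Uop_mul (hPa x) (hPb 1)) (InP_Uop_inv (InP_Uop_mul (hPb 1) (hPa x)))
  exact
  { hA := isURep_rho h hg.a_add hPa
    hB := isURep_rho h hg.b_add hPb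
    hZ := isURep_rho h hg.z_add hPz
    zA := fun x y => by
      simp only [← rho_mul h (hPz _) (hPa _), ← rho_mul h (hPa _) (hPz _), hg.za]
    zB := fun x y => by
      simp only [← rho_mul h (hPz _) (hPb _), ← rho_mul h (hPb _) (hPz _), hg.zb]
    comm := fun x y => by
      simp only [← rho_mul h (hPa _) (hPb _), ← rho_mul h (hPb _) (hPa _),
        ← rho_mul h (hPz _) (InP_Uop_mul (hPb _) (hPa _)), hg.comm] }

/-- Property (T) estimate: spectral gap on the complement of the invariant vectors. -/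
theorem T_gap {A B C ZAB ZBC ZCA : ZMod p → (H →L[ℂ] H)}
    (hAB : IsHeis A B ZAB) (hBC : IsHeis B C ZBC) (hCA : IsHeis C A ZCA)
    (ε : ℝ) (hε0 : 0 ≤ ε) (hε1 : ε ≤ 1) (hε : ε ^ 2 = (p : ℝ)⁻¹) (v : H)
    (hv : ∀ w : H, avg A w = w → avg B w = w → avg C w = w → inner ℂ w v = 0) :
    (1 - 2 * ε) * ‖v‖ ^ 2 ≤ ‖v - avg A v‖ ^ 2 + ‖v - avg B v‖ ^ 2 + ‖v - avg C v‖ ^ 2 := by
  set Δ : H →L[ℂ] H := (1 - avg A) + (1 - avg B) + (1 - avg C) with hΔ
  have sq : ∀ w : H, ‖w‖ ^ 2 = (inner ℂ w w : ℂ).re := by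
    intro w; rw [inner_self_eq_norm_sq_to_K]; norm_cast
  have happ : ∀ w, Δ w = (w - avg A w) + (w - avg B w) + (w - avg C w) := by
    intro w; simp [hΔ]
  have hq : ∀ (D : ZMod p → (H →L[ℂ] H)), IsURep D → ∀ w : H,
      (inner ℂ (w - avg D w) w : ℂ).re = ‖w - avg D w‖ ^ 2 := by
    intro D hD w
    rw [sq, inner_sub_right (w - avg D w) w (avg D w)]
    have : (inner ℂ (w - avg D w) (avg D w) : ℂ) = 0 := by
      rw [inner_sub_left, avg_sym hD w (avg D w), avg_sq_apply hD, sub_self]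
    rw [this, sub_zero]
  have hform : ∀ w, (inner ℂ (Δ w) w : ℂ).re
      = ‖w - avg A w‖ ^ 2 + ‖w - avg B w‖ ^ 2 + ‖w - avg C w‖ ^ 2 := by
    intro w
    rw [happ, inner_add_left, inner_add_left]
    simp only [Complex.add_re]
    rw [hq A hAB.hA, hq B hAB.hB, hq C hCA.hA]
  have hsym : ∀ v w, inner ℂ (Δ v) w = (inner ℂ v (Δ w) : ℂ) := by
    intro v w
    rw [happ, happ]
    simp only [inner_add_left, inner_add_right, inner_sub_left, inner_sub_right]
    rw [avg_sym hAB.hA, avg_sym hAB.hB, avg_sym hCA.hA]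
  have hsa : IsSelfAdjoint Δ := by
    rw [isSelfAdjoint_iff, ContinuousLinearMap.star_eq_adjoint]
    symm
    rw [ContinuousLinearMap.eq_adjoint_iff]
    exact hsym
  have h0 : 0 ≤ Δ := by
    rw [ContinuousLinearMap.nonneg_iff_isPositive, ContinuousLinearMap.isPositive_def']
    refine ⟨hsa, fun w => ?_⟩
    rw [ContinuousLinearMap.reApplyInnerSelf_apply]
    have := hform w
    rw [RCLike.re_to_complex, this]; positivity
  have h1 : 0 ≤ Δ * Δ - ((1 - 2 * ε : ℝ) : ℂ) • Δ := by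
    rw [ContinuousLinearMap.nonneg_iff_isPositive, ContinuousLinearMap.isPositive_def']
    refine ⟨?_, fun w => ?_⟩
    · apply IsSelfAdjoint.sub
      · exact (hsa.commute_iff hsa).mp (Commute.refl Δ)
      · apply IsSelfAdjoint.smul _ hsa
        rw [isSelfAdjoint_iff]; exact Complex.conj_ofReal _
    · rw [ContinuousLinearMap.reApplyInnerSelf_apply]
      have e1 : (inner ℂ ((Δ * Δ - ((1 - 2 * ε : ℝ) : ℂ) • Δ) w) w : ℂ)
          = inner ℂ (Δ w) (Δ w) - ((1 - 2 * ε : ℝ) : ℂ) * inner ℂ (Δ w) w := by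
        have a1 : (Δ * Δ - ((1 - 2 * ε : ℝ) : ℂ) • Δ) w
            = Δ (Δ w) - ((1 - 2 * ε : ℝ) : ℂ) • Δ w := rfl
        rw [a1, inner_sub_left, inner_smul_left, hsym (Δ w) w, Complex.conj_ofReal]
      rw [e1, RCLike.re_to_complex, Complex.sub_re, Complex.re_ofReal_mul, ← sq, hform]
      have := triple_ineq hAB hBC hCA ε hε0 hε1 hε w
      rw [← happ] at this
      linarith
  have hs := spectrum_subset_of_sq Δ (1 - 2 * ε) h0 h1
  have := gap_of_spectrum Δ hsa (1 - 2 * ε) hs v (by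
    intro w hw
    have h2 := hform w
    rw [hw, inner_zero_left, Complex.zero_re] at h2
    have hA : ‖w - avg A w‖ ^ 2 = 0 := by
      nlinarith [sq_nonneg ‖w - avg A w‖, sq_nonneg ‖w - avg B w‖, sq_nonneg ‖w - avg C w‖]
    have hB : ‖w - avg B w‖ ^ 2 = 0 := by
      nlinarith [sq_nonneg ‖w - avg A w‖, sq_nonneg ‖w - avg B w‖, sq_nonneg ‖w - avg C w‖]
    have hC : ‖w - avg C w‖ ^ 2 = 0 := by
      nlinarith [sq_nonneg ‖w - avg A w‖, sq_nonneg ‖w - avg B w‖, sq_nonneg ‖w - avg C w‖]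
    have f : ∀ x : H, ‖w - x‖ ^ 2 = 0 → x = w := by
      intro x hx
      have : ‖w - x‖ = 0 := by simpa using hx
      exact (sub_eq_zero.mp (norm_eq_zero.mp this)).symm
    exact hv w (f _ hA) (f _ hB) (f _ hC))
  rw [hform] at this
  exact this

end heis

end Pool.Agent.H56R3
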