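import Pool.Agent.H56R3.Rep

set_option autoImplicit false

open scoped InnerProductSpace ComplexOrder
open ContinuousLinearMap

namespace Pool.Agent.H56R3

variable {H : Type*} [NormedAddCommGroup H] [InnerProductSpace ℂ H] [CompleteSpace H]
variable {G : SimpleGraph ℕ} {π : B2 → (H →L[ℂ] H)}

/-- invariance under a closure -/
theorem rho_inv_closure (h : IsRep G π) {S : Set (Equiv.Perm ℕ)} (hS : ∀ σ ∈ S, InP G (Uop σ))
    {v : H} (hv : ∀ σ ∈ S, rho π σ v = v) {σ : Equiv.Perm ℕ} (hσ : σ ∈ Subgroup.closure S) :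
    rho π σ v = v := by
  induction hσ using Subgroup.closure_induction with
  | mem x hx => exact hv x hx
  | one => rw [rho_one]; rfl
  | mul x y hx hy ihx ihy =>
    rw [rho_mul h (InP_Uop_closure hS hx) (InP_Uop_closure hS hy), mul_apply_eq_comp, ihy, ihx]
  | inv x hx ihx =>
    have h1 : rho π x⁻¹ (rho π x v) = v := by
      rw [← mul_apply_eq_comp, ← rho_mul h (InP_Uop_inv (InP_Uop_closure hS hx))
        (InP_Uop_closure hS hx), inv_mul_cancel, rho_one]; rfl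
    rw [ihx] at h1
    exact h1

theorem norm_sq_re (w : H) : ‖w‖ ^ 2 = (inner ℂ w w : ℂ).re := by
  rw [inner_self_eq_norm_sq_to_K]; norm_cast

/-- for a projection in the image: `⟨π(M_S) v, v⟩ = ‖π(M_S) v‖²` -/
theorem proj_inner (h : IsRep G π) (S : Set ℕ) (v : H) :
    (inner ℂ (π (Mop S) v) v : ℂ).re = ‖π (Mop S) v‖ ^ 2 := by
  have h1 : π (Mop S) = π (Mop S) * π (Mop S) := by
    rw [← h.mul _ _ (InP.Mop G S) (InP.Mop G S), Mop_mul, Set.inter_self]
  have h2 : star (π (Mop S)) = π (Mop S) := by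
    rw [← h.star _ (InP.Mop G S), star_Mop]
  rw [norm_sq_re, adj_eq (π (Mop S)) v (π (Mop S) v), h2, ← mul_apply_eq_comp, ← h1,
    adj_eq, h2]

/-- the invariance of `v` gives `⟨π(M_{g S}) v, v⟩ = ⟨π(M_S) v, v⟩` -/
theorem proj_translate (h : IsRep G π) {σ : Equiv.Perm ℕ} (hσ : InP G (Uop σ))
    (S : Set ℕ) (v : H) (hv : rho π σ v = v) :
    ‖π (Mop (σ '' S)) v‖ ^ 2 = ‖π (Mop S) v‖ ^ 2 := by
  -- `π(U_σ) v = π(1) v`
  have hσ' := InP_Uop_inv hσ
  have h1 : π (Uop σ) v = π 1 v := by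
    have : π (Uop σ) v + (v - π 1 v) = v := hv
    have h2 : π (Uop σ) v = v - (v - π 1 v) := eq_sub_of_add_eq this
    rw [h2]; abel
  have h2 : π (Uop σ⁻¹) (π 1 v) = π 1 v := by
    rw [← h1, ← mul_apply_eq_comp, ← h.mul _ _ hσ' hσ, ← Uop_mul, inv_mul_cancel, Uop_one, h1]
  have h2' : π (Uop σ⁻¹) v = π 1 v := by
    rw [← h.e_right hσ', mul_apply_eq_comp, h2]
  have h3 : π (Mop (σ '' S)) v = π (Uop σ) (π (Mop S) v) := by
    rw [← conj_Mop, h.mul _ _ (hσ.mul (InP.Mop G S)) hσ', h.mul _ _ hσ (InP.Mop G S),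
      mul_apply_eq_comp, mul_apply_eq_comp, h2', ← mul_apply_eq_comp (π (Mop S)),
      h.e_right (InP.Mop G S)]
  rw [h3, norm_sq_re, adj_eq, ← h.star _ hσ, star_Uop, ← mul_apply_eq_comp (π (Uop σ⁻¹)),
    ← h.mul _ _ hσ' hσ, ← Uop_mul, inv_mul_cancel, Uop_one, ← mul_apply_eq_comp (π 1),
    h.e_left (InP.Mop G S), ← norm_sq_re]

theorem proj_le (h : IsRep G π) (S : Set ℕ) (v : H) :
    ‖π (Mop S) v‖ ^ 2 ≤ ‖v‖ ^ 2 := by
  have h1 := proj_inner h S v
  have h2 : (inner ℂ (π (Mop S) v) v : ℂ).re ≤ ‖π (Mop S) v‖ * ‖v‖ :=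
    le_trans (Complex.re_le_norm _) (norm_inner_le_norm _ _)
  rw [h1] at h2
  have h3 : ‖π (Mop S) v‖ ≤ ‖v‖ := by
    rcases eq_or_lt_of_le (norm_nonneg (π (Mop S) v)) with h4 | h4
    · rw [← h4]; exact norm_nonneg _
    · rw [pow_two] at h2
      exact le_of_mul_le_mul_left h2 h4
  exact pow_le_pow_left₀ (norm_nonneg _) h3 2

/-- additivity over a disjoint finite family -/
theorem proj_sum (h : IsRep G π) (v : H) {m : ℕ} (S : Fin m → Set ℕ)
    (hS : ∀ i j, i ≠ j → Disjoint (S i) (S j)) (s : Finset (Fin m)) :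
    ∑ i ∈ s, ‖π (Mop (S i)) v‖ ^ 2 = ‖π (Mop (⋃ i ∈ s, S i)) v‖ ^ 2 := by
  classical
  induction s using Finset.induction_on with
  | empty =>
    have : (⋃ i ∈ (∅ : Finset (Fin m)), S i) = (∅ : Set ℕ) := by simp
    rw [this]
    have h2 : Mop (∅ : Set ℕ) = 0 := by
      apply ext_op; intro f x
      rw [Mop_apply]; simp
    rw [h2, h.zero]; simp
  | insert a s ha ih =>
    rw [Finset.sum_insert ha, ih]
    have hd : Disjoint (S a) (⋃ i ∈ s, S i) := by
      rw [Set.disjoint_iUnion₂_right]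
      intro i hi
      apply hS
      rintro rfl
      exact ha hi
    rw [Finset.set_biUnion_insert, ← Mop_add hd, ← proj_inner h, ← proj_inner h,
      h.add _ _ (InP.Mop G _) (InP.Mop G _), _root_.add_apply]
    -- norm of the sum
    have horth : (inner ℂ (π (Mop (S a)) v) (π (Mop (⋃ i ∈ s, S i)) v) : ℂ) = 0 := by
      rw [adj_eq, ← h.star _ (InP.Mop G _), star_Mop, ← mul_apply_eq_comp,
        ← h.mul _ _ (InP.Mop G _) (InP.Mop G _), Mop_mul, Set.disjoint_iff_inter_eq_empty.mp hd]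
      have h2 : Mop (∅ : Set ℕ) = 0 := by
        apply ext_op; intro f x
        rw [Mop_apply]; simp
      rw [h2, h.zero]; simp
    have horth' : (inner ℂ (π (Mop (⋃ i ∈ s, S i)) v) (π (Mop (S a)) v) : ℂ) = 0 := by
      rw [← inner_conj_symm, horth, map_zero]
    rw [norm_sq_re (π (Mop (S a)) v + π (Mop (⋃ i ∈ s, S i)) v), inner_add_left, inner_add_right,
      inner_add_right, horth, horth', proj_inner h, proj_inner h]
    simp only [add_zero, zero_add, Complex.add_re]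
    rw [← norm_sq_re, ← norm_sq_re]

/-- The translates of `S` being disjoint, invariant vectors are killed by `π(M_S)`. -/
theorem proj_kill (h : IsRep G π) {Gen : Set (Equiv.Perm ℕ)} (hGen : ∀ σ ∈ Gen, InP G (Uop σ))
    (S : Set ℕ)
    (hdisj : ∀ m : ℕ, ∃ g : Fin m → Equiv.Perm ℕ, (∀ i, g i ∈ Subgroup.closure Gen) ∧
      ∃ F : Set ℕ, F.Finite ∧ ∀ i j : Fin m, ∀ x y : ℕ, x ∈ S → x ∉ F → y ∈ S → y ∉ F →
        g i x = g j y → i = j)
    (v : H) (hv : ∀ σ ∈ Gen, rho π σ v = v) : π (Mop S) v = 0 := by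
  have key : ∀ m : ℕ, (m : ℝ) * ‖π (Mop S) v‖ ^ 2 ≤ ‖v‖ ^ 2 := by
    intro m
    obtain ⟨g, hg, F, hF, hd⟩ := hdisj m
    have hSF : π (Mop S) = π (Mop (S \ F)) := by
      have h1 : S = (S \ F) ∪ (S ∩ F) := (Set.sdiff_union_inter S F).symm
      have hdis : Disjoint (S \ F) (S ∩ F) := by
        rw [Set.disjoint_left]; rintro x ⟨-, hx⟩ ⟨-, hx'⟩; exact hx hx'
      have h2 : Mop S = Mop (S \ F) + Mop (S ∩ F) := by
        rw [Mop_add hdis, ← h1]
      rw [h2, h.add _ _ (InP.Mop G _) (InP.Mop G _),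
        h.ghost (Mop (S ∩ F)) (InP.Mop G _) (InGh.Mop_finite (hF.inter_of_right S)), add_zero]
    rw [hSF]
    have h3 : ∀ i : Fin m, ‖π (Mop (g i '' (S \ F))) v‖ ^ 2 = ‖π (Mop (S \ F)) v‖ ^ 2 := by
      intro i
      exact proj_translate h (InP_Uop_closure hGen (hg i)) _ v (rho_inv_closure h hGen hv (hg i))
    have h4 := proj_sum h v (fun i => g i '' (S \ F)) (by
      intro i j hij
      rw [Set.disjoint_left]
      rintro z ⟨x, hx, rfl⟩ ⟨y, hy, hxy⟩
      exact hij (hd i j x y hx.1 hx.2 hy.1 hy.2 hxy.symm)) Finset.univ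
    simp only [h3, Finset.sum_const, Finset.card_univ, Fintype.card_fin, nsmul_eq_mul] at h4
    rw [h4]
    exact proj_le h _ v
  by_contra hne
  have hpos : 0 < ‖π (Mop S) v‖ ^ 2 := by positivity
  obtain ⟨m, hm⟩ := exists_nat_gt (‖v‖ ^ 2 / ‖π (Mop S) v‖ ^ 2)
  have := key m
  rw [div_lt_iff₀ hpos] at hm
  linarith

variable {p : ℕ} [Fact p.Prime]

/-- The main spectral estimate in representations killing ghosts. -/
theorem rep_spectrum (h : IsRep G π) {a b c zab zbc zca : ZMod p → Equiv.Perm ℕ}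
    (hab : HeisG a b zab) (hbc : HeisG b c zbc) (hca : HeisG c a zca)
    (hPa : ∀ x, InP G (Uop (a x))) (hPb : ∀ x, InP G (Uop (b x))) (hPc : ∀ x, InP G (Uop (c x)))
    (τ : Equiv.Perm ℕ) (hτ : τ * τ = 1) (hPτ : InP G (Uop τ))
    (hdisj : ∀ m : ℕ, ∃ g : Fin m → Equiv.Perm ℕ,
      (∀ i, g i ∈ Subgroup.closure (Set.range a ∪ Set.range b ∪ Set.range c)) ∧
      ∃ F : Set ℕ, F.Finite ∧ ∀ i j : Fin m, ∀ x y : ℕ, x ∈ {x | τ x ≠ x} → x ∉ F →
        y ∈ {x | τ x ≠ x} → y ∉ F → g i x = g j y → i = j)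
    (ε : ℝ) (hε0 : 0 ≤ ε) (hε1 : 2 * ε < 1) (hε : ε ^ 2 = (p : ℝ)⁻¹) :
    spectrum ℂ (π ((∑ x, (1 - Uop (a x))) + (∑ x, (1 - Uop (b x))) + (∑ x, (1 - Uop (c x)))
      + (1 - Uop τ))) ⊆ gapSet (p * (1 - 2 * ε)) := by
  set A : ZMod p → (H →L[ℂ] H) := fun x => rho π (a x) with hA
  set B : ZMod p → (H →L[ℂ] H) := fun x => rho π (b x) with hB
  set C : ZMod p → (H →L[ℂ] H) := fun x => rho π (c x) with hC
  have hAB := isHeis_rho h hab hPa hPb
  have hBC := isHeis_rho h hbc hPb hPc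
  have hCA := isHeis_rho h hca hPc hPa
  have hp0 : (0 : ℝ) < p := by exact_mod_cast (Fact.out : p.Prime).pos
  -- value of π on the pieces
  have h1sub : ∀ σ : Equiv.Perm ℕ, InP G (Uop σ) → π (1 - Uop σ) = 1 - rho π σ := by
    intro σ hσ
    rw [h.sub (InP.one G) hσ, rho]; abel
  have hsum : ∀ (d : ZMod p → Equiv.Perm ℕ), (∀ x, InP G (Uop (d x))) →
      π (∑ x, (1 - Uop (d x))) = (p : ℂ) • (1 - avg (fun x => rho π (d x))) := by
    intro d hd
    rw [h.sum _ _ (fun i _ => (InP.one G).sub (hd i))]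
    simp only [h1sub _ (hd _)]
    rw [Finset.sum_sub_distrib, Finset.sum_const, Finset.card_univ, ZMod.card, avg, smul_sub,
      smul_smul, mul_inv_cancel₀ (p_ne_zero p), one_smul, ← Nat.cast_smul_eq_nsmul ℂ]
  have hPs : ∀ (d : ZMod p → Equiv.Perm ℕ), (∀ x, InP G (Uop (d x))) →
      InP G (∑ x, (1 - Uop (d x))) := fun d hd => InP.sum _ _ (fun i _ => (InP.one G).sub (hd i))
  have hL : π ((∑ x, (1 - Uop (a x))) + (∑ x, (1 - Uop (b x))) + (∑ x, (1 - Uop (c x)))
      + (1 - Uop τ)) = (p : ℂ) • ((1 - avg A) + (1 - avg B) + (1 - avg C)) + (1 - rho π τ) := by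
    rw [h.add _ _ (((hPs a hPa).add (hPs b hPb)).add (hPs c hPc)) ((InP.one G).sub hPτ),
      h.add _ _ ((hPs a hPa).add (hPs b hPb)) (hPs c hPc), h.add _ _ (hPs a hPa) (hPs b hPb),
      hsum a hPa, hsum b hPb, hsum c hPc, h1sub τ hPτ, smul_add, smul_add]
  rw [hL]
  set T : H →L[ℂ] H := (p : ℂ) • ((1 - avg A) + (1 - avg B) + (1 - avg C)) + (1 - rho π τ) with hT
  -- the invariant subspace
  set K : Submodule ℂ H := LinearMap.ker (1 - avg A : H →L[ℂ] H).toLinearMap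
    ⊓ LinearMap.ker (1 - avg B : H →L[ℂ] H).toLinearMap
    ⊓ LinearMap.ker (1 - avg C : H →L[ℂ] H).toLinearMap with hK
  have hKmem : ∀ w, w ∈ K ↔ (avg A w = w ∧ avg B w = w ∧ avg C w = w) := by
    intro w
    simp only [hK, Submodule.mem_inf, LinearMap.mem_ker]
    have : ∀ D : ZMod p → (H →L[ℂ] H), (1 - avg D : H →L[ℂ] H) w = 0 ↔ avg D w = w := by
      intro D
      change w - avg D w = 0 ↔ _
      rw [sub_eq_zero, eq_comm]
    constructor
    · rintro ⟨⟨h1, h2⟩, h3⟩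
      exact ⟨(this A).mp h1, (this B).mp h2, (this C).mp h3⟩
    · rintro ⟨h1, h2, h3⟩
      exact ⟨⟨(this A).mpr h1, (this B).mpr h2⟩, (this C).mpr h3⟩
  have hKclosed : IsClosed (K : Set H) := by
    have e : (K : Set H) = ({w | (1 - avg A : H →L[ℂ] H) w = 0} ∩
      {w | (1 - avg B : H →L[ℂ] H) w = 0}) ∩ {w | (1 - avg C : H →L[ℂ] H) w = 0} := rfl
    rw [e]
    refine (IsClosed.inter ?_ ?_).inter ?_ <;>
    exact isClosed_eq (ContinuousLinearMap.continuous _) continuous_const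
  -- τ acts trivially on K
  have hτK : ∀ v ∈ K, rho π τ v = v := by
    intro v hv
    obtain ⟨hv1, hv2, hv3⟩ := (hKmem v).mp hv
    have hinv : ∀ σ ∈ Set.range a ∪ Set.range b ∪ Set.range c, rho π σ v = v := by
      have e : ∀ (d : ZMod p → Equiv.Perm ℕ), IsURep (fun x => rho π (d x)) →
          avg (fun x => rho π (d x)) v = v → ∀ x, rho π (d x) v = v := by
        intro d hd hdv x
        conv_lhs => rw [← hdv]
        have := congrArg (fun T : H →L[ℂ] H => T v) (avg_mul_left hd x)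
        simp only [mul_apply_eq_comp] at this
        rw [this, hdv]
      rintro σ ((⟨x, rfl⟩ | ⟨x, rfl⟩) | ⟨x, rfl⟩)
      · exact e a hAB.hA hv1 x
      · exact e b hAB.hB hv2 x
      · exact e c hCA.hA hv3 x
    have hGen : ∀ σ ∈ Set.range a ∪ Set.range b ∪ Set.range c, InP G (Uop σ) := by
      rintro σ ((⟨x, rfl⟩ | ⟨x, rfl⟩) | ⟨x, rfl⟩)
      · exact hPa x
      · exact hPb x
      · exact hPc x
    have hkill := proj_kill h hGen {x | τ x ≠ x} hdisj v hinv
    have h1 : (1 - Uop τ) = (1 - Uop τ) * Mop {x | τ x ≠ x} := by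
      apply ext_op
      intro f x
      rw [mul_apply_eq_comp]
      have e1 : ∀ g : E2, ((1 - Uop τ) g) = g - Uop τ g := fun g => rfl
      rw [e1, e1, lp.coeFn_sub, lp.coeFn_sub, Pi.sub_apply, Pi.sub_apply, Uop_apply, Uop_apply,
        Mop_apply, Mop_apply]
      have hτinv : τ⁻¹ = τ := inv_eq_of_mul_eq_one_left hτ
      rw [hτinv]
      by_cases hx : τ x = x
      · simp [hx]
      · have hx' : τ (τ x) ≠ τ x := fun h' => hx (τ.injective h')
        have m1 : x ∈ {x | τ x ≠ x} := hx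
        have m2 : τ x ∈ {x | τ x ≠ x} := hx'
        rw [if_pos m1, if_pos m2]
    have h2 : (1 - rho π τ) v = 0 := by
      rw [← h1sub τ hPτ, h1, h.mul _ _ ((InP.one G).sub hPτ) (InP.Mop G _), mul_apply_eq_comp,
        hkill, map_zero]
    have h3 : v - rho π τ v = 0 := h2
    exact (sub_eq_zero.mp h3).symm
  -- positivity of 1 - ρ(τ)
  have hτinv : τ⁻¹ = τ := inv_eq_of_mul_eq_one_left hτ
  have hτpos : ∀ v : H, 0 ≤ (inner ℂ ((1 - rho π τ) v) v : ℂ).re := by
    intro v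
    have e0 : (1 - rho π τ) v = v - rho π τ v := rfl
    have e1 : ‖v - rho π τ v‖ ^ 2 = 2 * (inner ℂ (v - rho π τ v) v : ℂ).re := by
      have e2 : (inner ℂ (rho π τ v) (rho π τ v) : ℂ) = inner ℂ v v := by
        rw [rho_adj h hPτ, ← mul_apply_eq_comp, ← rho_mul h (InP_Uop_inv hPτ) hPτ, inv_mul_cancel,
          rho_one]; rfl
      have e3 : (inner ℂ (rho π τ v) v : ℂ) = inner ℂ v (rho π τ v) := by
        rw [rho_adj h hPτ, hτinv]
      rw [norm_sq_re]
      simp only [inner_sub_left, inner_sub_right, Complex.sub_re, e2, e3]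
      ring
    rw [e0]
    have : 0 ≤ ‖v - rho π τ v‖ ^ 2 := by positivity
    linarith
  have hsymavg : ∀ D : ZMod p → (H →L[ℂ] H), IsURep D → IsSelfAdjoint (avg D) := by
    intro D hD
    rw [isSelfAdjoint_iff, ContinuousLinearMap.star_eq_adjoint]
    symm
    rw [ContinuousLinearMap.eq_adjoint_iff]
    exact avg_sym hD
  have hTsa : IsSelfAdjoint T := by
    have h1 : IsSelfAdjoint (1 : H →L[ℂ] H) := IsSelfAdjoint.one _
    apply IsSelfAdjoint.add
    · apply IsSelfAdjoint.smul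
      · rw [isSelfAdjoint_iff]; simp
      · exact ((h1.sub (hsymavg A hAB.hA)).add (h1.sub (hsymavg B hAB.hB))).add
          (h1.sub (hsymavg C hCA.hA))
    · apply h1.sub
      rw [isSelfAdjoint_iff, star_rho h hPτ, hτinv]
  apply spectrum_of_gap T hTsa (p * (1 - 2 * ε)) (by
    apply mul_pos hp0; linarith) K hKclosed
  · intro v hv
    obtain ⟨hv1, hv2, hv3⟩ := (hKmem v).mp hv
    have e : T v = (p : ℂ) • ((v - avg A v) + (v - avg B v) + (v - avg C v)) + (v - rho π τ v) := rfl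
    rw [e, hv1, hv2, hv3, hτK v hv]
    simp
  · intro v hv
    have e : T v = (p : ℂ) • ((v - avg A v) + (v - avg B v) + (v - avg C v))
      + (1 - rho π τ) v := rfl
    have hq : ∀ (D : ZMod p → (H →L[ℂ] H)), IsURep D →
        (inner ℂ (v - avg D v) v : ℂ).re = ‖v - avg D v‖ ^ 2 := by
      intro D hD
      rw [norm_sq_re, inner_sub_right (v - avg D v) v (avg D v)]
      have : (inner ℂ (v - avg D v) (avg D v) : ℂ) = 0 := by
        rw [inner_sub_left, avg_sym hD v (avg D v), avg_sq_apply hD, sub_self]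
      rw [this, sub_zero]
    have hgap := T_gap hAB hBC hCA ε hε0 (by linarith) hε v (by
      intro w h1 h2 h3
      exact (Submodule.mem_orthogonal K v).mp hv w ((hKmem w).mpr ⟨h1, h2, h3⟩))
    rw [e, inner_add_left, inner_smul_left, inner_add_left, inner_add_left, Complex.conj_natCast,
      Complex.add_re]
    have e3 : ∀ z : ℂ, ((p : ℂ) * z).re = p * z.re := by
      intro z
      have : (p : ℂ) = ((p : ℝ) : ℂ) := by norm_cast
      rw [this, Complex.re_ofReal_mul]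
    rw [e3, Complex.add_re, Complex.add_re, hq A hAB.hA, hq B hAB.hB, hq C hCA.hA]
    have h5 := hτpos v
    have h6 := mul_le_mul_of_nonneg_left hgap hp0.le
    linarith

end Pool.Agent.H56R3
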