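import Mathlib

set_option autoImplicit false

open IsDedekindDomain NumberField

namespace Pool.Agent.H56R3

variable (K : Type) [Field K] [NumberField K] (S : Set (HeightOneSpectrum (𝓞 K)))

/-- the normalised order of a unit of the ring of `S`-integers at a prime -/
noncomputable def ordS (v : HeightOneSpectrum (𝓞 K)) : Additive (S.integer K)ˣ →+ ℤ where
  toFun u := WithZero.log (v.valuation K ((u.toMul : (S.integer K)ˣ) : K))
  map_zero' := by simp
  map_add' u w := by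
    have hu : ((u.toMul : (S.integer K)ˣ) : K) ≠ 0 := by
      intro h
      have h1 : ((u.toMul : (S.integer K)ˣ) : S.integer K) = 0 := Subtype.ext h
      exact (u.toMul).ne_zero h1
    have hw : ((w.toMul : (S.integer K)ˣ) : K) ≠ 0 := by
      intro h
      have h1 : ((w.toMul : (S.integer K)ˣ) : S.integer K) = 0 := Subtype.ext h
      exact (w.toMul).ne_zero h1
    have h1 : (((u + w).toMul : (S.integer K)ˣ) : K)
        = ((u.toMul : (S.integer K)ˣ) : K) * ((w.toMul : (S.integer K)ˣ) : K) := by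
      rw [toMul_add]; push_cast; rfl
    rw [h1, map_mul, WithZero.log_mul]
    · exact (Valuation.ne_zero_iff _).mpr hu
    · exact (Valuation.ne_zero_iff _).mpr hw

theorem exists_prime_above (ℓ : ℕ) (hℓ : ℓ.Prime) :
    ∃ v : HeightOneSpectrum (𝓞 K), ((ℓ : ℕ) : 𝓞 K) ∈ v.asIdeal := by
  have hnu : ¬ IsUnit ((ℓ : ℕ) : 𝓞 K) := by
    intro h
    have h1 := (NumberField.isUnit_iff_norm (K := K)).mp h
    have h2 : RingOfIntegers.norm ℚ ((ℓ : ℕ) : 𝓞 K) = ((ℓ : ℕ) : 𝓞 ℚ) ^ Module.finrank ℚ K := by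
      apply RingOfIntegers.ext
      rw [RingOfIntegers.coe_norm]
      have := Algebra.norm_algebraMap (R := ℚ) (S := K) (ℓ : ℚ)
      simpa using this
    rw [h2] at h1
    have h3 : (1 : ℕ) < ℓ := hℓ.one_lt
    have h4 : 0 < Module.finrank ℚ K := Module.finrank_pos
    have h5 : ((((ℓ : ℕ) : 𝓞 ℚ) ^ Module.finrank ℚ K : 𝓞 ℚ) : ℚ) = (ℓ : ℚ) ^ Module.finrank ℚ K := by
      push_cast; rfl
    rw [h5, abs_of_nonneg (by positivity)] at h1
    have h6 : (1 : ℚ) < (ℓ : ℚ) ^ Module.finrank ℚ K :=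
      one_lt_pow₀ (by exact_mod_cast h3) h4.ne'
    linarith
  obtain ⟨M, hM, hle⟩ := Ideal.exists_le_maximal (Ideal.span {((ℓ : ℕ) : 𝓞 K)}) (by
    rw [Ne, Ideal.span_singleton_eq_top]; exact hnu)
  have hmem : ((ℓ : ℕ) : 𝓞 K) ∈ M := hle (Ideal.mem_span_singleton_self _)
  refine ⟨⟨M, hM.isPrime, ?_⟩, hmem⟩
  rintro rfl
  have h1 : ((ℓ : ℕ) : 𝓞 K) = 0 := by simpa using hmem
  exact hℓ.ne_zero (by exact_mod_cast h1)

/-- there is an `S`-unit of nonzero order at `v ∈ S` -/
theorem exists_unit_ord_ne_zero (v : HeightOneSpectrum (𝓞 K)) (hv : v ∈ S) :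
    ∃ u : Additive (S.integer K)ˣ, ordS K S v u ≠ 0 := by
  classical
  set h := Fintype.card (ClassGroup (𝓞 K)) with hh
  have hpos : 0 < h := Fintype.card_pos
  have hne : v.asIdeal ∈ nonZeroDivisors (Ideal (𝓞 K)) :=
    mem_nonZeroDivisors_of_ne_zero v.ne_bot
  have h1 : (ClassGroup.mk0 ⟨v.asIdeal, hne⟩) ^ h = 1 := pow_card_eq_one
  rw [← map_pow, ClassGroup.mk0_eq_one_iff] at h1
  obtain ⟨α, hα⟩ := h1.principal
  have hα' : v.asIdeal ^ h = Ideal.span {α} := by
    simpa using hα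
  have hα0 : α ≠ 0 := by
    rintro rfl
    rw [Ideal.span_singleton_eq_bot.mpr rfl] at hα'
    exact v.ne_bot (by
      have := eq_bot_iff.mp (show v.asIdeal ^ h = ⊥ from hα')
      exact (pow_eq_zero_iff hpos.ne').mp hα')
  have hval1 : ∀ w : HeightOneSpectrum (𝓞 K), w ≠ v → w.valuation K (algebraMap (𝓞 K) K α) = 1 := by
    intro w hw
    rw [HeightOneSpectrum.valuation_of_algebraMap]
    by_contra hne1
    have hlt : w.intValuation α < 1 := lt_of_le_of_ne (w.intValuation_le_one α) hne1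
    rw [HeightOneSpectrum.intValuation_lt_one_iff_mem] at hlt
    apply hw
    have h2 : v.asIdeal ^ h ≤ w.asIdeal := by
      rw [hα', Ideal.span_singleton_le_iff_mem]; exact hlt
    have h3 : v.asIdeal ≤ w.asIdeal := w.isPrime.le_of_pow_le h2
    have h4 : v.asIdeal = w.asIdeal := v.isMaximal.eq_of_le w.isPrime.ne_top h3
    exact HeightOneSpectrum.ext h4.symm
  have hvalv : v.valuation K (algebraMap (𝓞 K) K α) < 1 := by
    rw [HeightOneSpectrum.valuation_of_algebraMap, HeightOneSpectrum.intValuation_lt_one_iff_mem]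
    have h2 : α ∈ v.asIdeal ^ h := by rw [hα']; exact Ideal.mem_span_singleton_self α
    exact Ideal.pow_le_self hpos.ne' h2
  have hαK : algebraMap (𝓞 K) K α ≠ 0 := by
    intro h0
    apply hα0
    exact (FaithfulSMul.algebraMap_injective (𝓞 K) K) (by rw [h0, map_zero])
  set u : (S.integer K)ˣ :=
    { val := ⟨algebraMap (𝓞 K) K α, fun w hw => by
        rw [hval1 w (fun h => hw (h ▸ hv))]⟩
      inv := ⟨(algebraMap (𝓞 K) K α)⁻¹, fun w hw => by
        rw [map_inv₀, hval1 w (fun h => hw (h ▸ hv)), inv_one]⟩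
      val_inv := Subtype.ext (mul_inv_cancel₀ hαK)
      inv_val := Subtype.ext (inv_mul_cancel₀ hαK) } with hu
  refine ⟨Additive.ofMul u, ?_⟩
  intro h0
  have h2 : WithZero.log (v.valuation K (algebraMap (𝓞 K) K α)) = 0 := h0
  have hne0 : v.valuation K (algebraMap (𝓞 K) K α) ≠ 0 := (Valuation.ne_zero_iff _).mpr hαK
  have h3 : WithZero.log (v.valuation K (algebraMap (𝓞 K) K α)) < 0 := by
    rw [← WithZero.log_one]
    exact (WithZero.log_lt_log hne0 one_ne_zero).mpr hvalv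
  omega

/-- there is a homomorphism from the `S`-units onto `ℤ` (for `v ∈ S`) -/
theorem exists_surj (v : HeightOneSpectrum (𝓞 K)) (hv : v ∈ S) :
    ∃ m : Additive (S.integer K)ˣ →+ ℤ, ∃ u, m u = 1 := by
  obtain ⟨u0, hu0⟩ := exists_unit_ord_ne_zero K S v hv
  obtain ⟨g, hg⟩ := Int.subgroup_cyclic (ordS K S v).range
  have hg' : ∀ u, ∃ k : ℤ, ordS K S v u = k * g := by
    intro u
    have h1 : ordS K S v u ∈ (ordS K S v).range := ⟨u, rfl⟩
    rw [hg, AddSubgroup.mem_closure_singleton] at h1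
    obtain ⟨k, hk⟩ := h1
    exact ⟨k, by rw [← hk]; simp⟩
  have hg0 : g ≠ 0 := by
    rintro rfl
    obtain ⟨k, hk⟩ := hg' u0
    rw [mul_zero] at hk
    exact hu0 hk
  have hgmem : g ∈ (ordS K S v).range := by
    rw [hg]; exact AddSubgroup.subset_closure rfl
  obtain ⟨u1, hu1⟩ := hgmem
  refine ⟨{ toFun := fun u => ordS K S v u / g, map_zero' := by simp, map_add' := fun a b => ?_ },
    u1, ?_⟩
  · obtain ⟨k, hk⟩ := hg' a
    obtain ⟨l, hl⟩ := hg' b
    rw [map_add, hk, hl, ← add_mul, Int.mul_ediv_cancel _ hg0, Int.mul_ediv_cancel _ hg0,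
      Int.mul_ediv_cancel _ hg0]
  · change ordS K S v u1 / g = 1
    rw [hu1]; exact Int.ediv_self hg0

end Pool.Agent.H56R3
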