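import Pool.Agent.H56R3.Construct

set_option autoImplicit false

open Matrix

namespace Pool.Agent.H56R3

theorem idxN_eY (y : Y) : idxN (eY y) = y.1 := by simp [idxN]

theorem idx_fin (k : ℕ) : {x | idxN x = k}.Finite := by
  have h1 : {x | idxN x = k} ⊆ Set.range (fun z : Bool × GG k => eY ⟨k, z⟩) := by
    intro x hx
    obtain ⟨⟨k', z⟩, rfl⟩ := eY.surjective x
    have : k' = k := by
      have h2 : idxN (eY ⟨k', z⟩) = k := hx
      rwa [idxN_eY] at h2
    subst this
    exact ⟨z, rfl⟩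
  exact (Set.finite_range _).subset h1

theorem idx_fin_lt (m : ℕ) : {x | idxN x < m}.Finite := by
  have : {x | idxN x < m} = ⋃ k ∈ Finset.range m, {x | idxN x = k} := by
    ext x; simp
  rw [this]
  exact Set.Finite.biUnion (Finset.finite_toSet _) (fun k _ => idx_fin k)

/-- projection of `Γ0` -/
def SS (k : ℕ) : Set (GG k) := {g | ∃ γ ∈ Γ0, γ k = g}

noncomputable def orb (b : Bool) (k : ℕ) : Finset ℕ :=
  (Set.toFinite ((fun g : GG k => eY ⟨k, b, g⟩) '' SS k)).toFinset

theorem mem_orb (b : Bool) (k : ℕ) (n : ℕ) :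
    n ∈ orb b k ↔ ∃ γ ∈ Γ0, eY ⟨k, b, γ k⟩ = n := by
  simp only [orb, Set.Finite.mem_toFinset, Set.mem_image, SS]
  constructor
  · rintro ⟨g, ⟨γ, hγ, rfl⟩, rfl⟩; exact ⟨γ, hγ, rfl⟩
  · rintro ⟨γ, hγ, rfl⟩; exact ⟨γ k, ⟨γ, hγ, rfl⟩, rfl⟩

theorem inj_e (b : Bool) (k : ℕ) : Function.Injective (fun g : GG k => eY ⟨k, b, g⟩) := by
  intro g h hgh
  have := eY.injective hgh
  simpa using this

theorem card_orb (b : Bool) (k : ℕ) : (orb b k).card = (SS k).ncard := by
  have h1 := Set.ncard_eq_toFinset_card ((fun g : GG k => eY ⟨k, b, g⟩) '' SS k)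
    (Set.toFinite ((fun g : GG k => eY ⟨k, b, g⟩) '' SS k))
  unfold orb
  rw [← h1, Set.ncard_image_of_injective _ (inj_e b k)]

theorem hh_inj (k : ℕ) {i j : ℕ} (hi : i < k) (hj : j < k) (h : hh i k = hh j k) : i = j := by
  have := E_inj 0 1 h01 h
  exact tt_pow_inj k hi hj this

theorem le_card_orb (k : ℕ) : k ≤ (orb true k).card := by
  classical
  have h1 : (Finset.range k).image (fun i => eY ⟨k, true, hh i k⟩) ⊆ orb true k := by
    intro n hn
    rw [Finset.mem_image] at hn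
    obtain ⟨i, -, rfl⟩ := hn
    rw [mem_orb]
    exact ⟨hh i, hh_mem i, rfl⟩
  have h2 := Finset.card_le_card h1
  rw [Finset.card_image_of_injOn, Finset.card_range] at h2
  · exact h2
  · intro i hi j hj hij
    have := inj_e true k hij
    exact hh_inj k (by simpa using hi) (by simpa using hj) this

theorem Γ0_smul (b : Bool) (k : ℕ) {σ : Equiv.Perm ℕ}
    (hσ : σ ∈ Set.range (fun x => phi (ga x)) ∪ Set.range (fun x => phi (gb x))
      ∪ Set.range (fun x => phi (gc x))) (x : ℕ) (hx : x ∈ orb b k) : σ x ∈ orb b k := by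
  rw [mem_orb] at hx ⊢
  obtain ⟨γ, hγ, rfl⟩ := hx
  have key : ∀ δ ∈ Γ0, ∃ γ' ∈ Γ0, eY ⟨k, b, γ' k⟩ = phi δ (eY ⟨k, b, γ k⟩) := by
    intro δ hδ
    refine ⟨δ * γ, Γ0.mul_mem hδ hγ, ?_⟩
    rw [phi_apply, psi_apply]; rfl
  rcases hσ with (⟨u, rfl⟩ | ⟨u, rfl⟩) | ⟨u, rfl⟩
  · exact key _ (ga_mem u)
  · exact key _ (gb_mem u)
  · exact key _ (gc_mem u)

/-- a function invariant under the generators is constant on orbits -/
theorem w_const (w : ℕ → ℂ) (hw : ∀ i x, w (fam' i x) = w x) (γ : PG) (hγ : γ ∈ Γ0) (x : ℕ) :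
    w (phi γ x) = w x := by
  unfold Γ0 at hγ
  induction hγ using Subgroup.closure_induction generalizing x with
  | mem g hg =>
    rcases hg with (⟨u, rfl⟩ | ⟨u, rfl⟩) | ⟨u, rfl⟩
    · exact hw (Sum.inl u) x
    · exact hw (Sum.inr (Sum.inl u)) x
    · exact hw (Sum.inr (Sum.inr (Sum.inl u))) x
  | one => rw [map_one]; rfl
  | mul g h _ _ ihg ihh =>
    rw [map_mul, Equiv.Perm.mul_apply, ihg, ihh]
  | inv g _ ih =>
    rw [map_inv]
    have := ih ((phi g)⁻¹ x)
    rw [perm_apply_inv_self] at this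
    exact this.symm

noncomputable def theData : Data 5 where
  a := fun x => phi (ga x)
  b := fun x => phi (gb x)
  c := fun x => phi (gc x)
  zab := fun x => phi (gab x)
  zbc := fun x => phi (gbc x)
  zca := fun x => phi (gca x)
  τ := tauN
  hab := hGab.map phi
  hbc := hGbc.map phi
  hca := hGca.map phi
  hτ := tauN_sq
  free := fam_free
  idx := idxN
  idx_fin := idx_fin
  idx_pres := fam_idx
  disj := by
    intro m
    refine ⟨fun i => phi (hh i), fun i => closure_phi (hh_mem i), {x | idxN x < m}, idx_fin_lt m, ?_⟩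
    intro i j x y hx hxF hy hyF hxy
    obtain ⟨⟨k, b, g⟩, rfl⟩ := eY.surjective x
    obtain ⟨⟨k', b', g'⟩, rfl⟩ := eY.surjective y
    have hg : g = 1 := ne_one_tau hx
    have hg' : g' = 1 := ne_one_tau hy
    subst hg; subst hg'
    rw [phi_apply, phi_apply] at hxy
    have h1 := eY.injective hxy
    rw [psi_apply, psi_apply] at h1
    have hk : k = k' := congrArg Sigma.fst h1
    subst hk
    simp only [Sigma.mk.injEq, heq_eq_eq, Prod.mk.injEq, true_and, mul_one] at h1
    have hkm : m ≤ k := by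
      have h3 : ¬ (idxN (eY ⟨k, b, 1⟩) < m) := hxF
      rw [idxN_eY] at h3
      exact not_lt.mp h3
    have := hh_inj k (lt_of_lt_of_le i.2 hkm) (lt_of_lt_of_le j.2 hkm) h1.2
    exact Fin.ext this
  big := by
    intro N
    refine ⟨orb true N, orb false N, le_card_orb N, by rw [card_orb, card_orb], ?_,
      eY ⟨N, true, 1⟩, ?_, eY ⟨N, false, 1⟩, ?_, ?_, ?_, ?_, ?_, ?_, ?_⟩
    · rw [Finset.disjoint_left]
      intro x h1 h2
      rw [mem_orb] at h1 h2
      obtain ⟨γ, -, rfl⟩ := h1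
      obtain ⟨δ, -, h3⟩ := h2
      have := eY.injective h3
      simp at this
    · rw [mem_orb]; exact ⟨1, Γ0.one_mem, rfl⟩
    · rw [mem_orb]; exact ⟨1, Γ0.one_mem, rfl⟩
    · rw [tauN_apply, tauY_one]; rfl
    · intro x hx hne
      rw [mem_orb] at hx
      obtain ⟨γ, -, rfl⟩ := hx
      rw [tauN_apply, tauY_ne]
      intro h; apply hne; rw [h]
    · intro x hx hne
      rw [mem_orb] at hx
      obtain ⟨γ, -, rfl⟩ := hx
      rw [tauN_apply, tauY_ne]
      intro h; apply hne; rw [h]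
    · intro σ hσ x hx; exact Γ0_smul true N hσ x hx
    · intro σ hσ x hx; exact Γ0_smul false N hσ x hx
    · intro w hw
      have hcon : ∀ (b : Bool), ∀ x ∈ orb b N, w x = w (eY ⟨N, b, 1⟩) := by
        intro b x hx
        rw [mem_orb] at hx
        obtain ⟨γ, hγ, rfl⟩ := hx
        have := w_const w hw γ hγ (eY ⟨N, b, 1⟩)
        rw [phi_apply, psi_apply, mul_one] at this
        exact this
      have hτw : w (eY ⟨N, false, 1⟩) = w (eY ⟨N, true, 1⟩) := by
        have : w (tauN (eY ⟨N, true, 1⟩)) = w (eY ⟨N, true, 1⟩) :=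
          hw (Sum.inr (Sum.inr (Sum.inr ()))) (eY ⟨N, true, 1⟩)
        rw [tauN_apply, tauY_one] at this
        exact this
      refine ⟨hcon true, fun x hx => ?_⟩
      rw [hcon false x hx, hτw]

end Pool.Agent.H56R3
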